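import Pool.Agent.Helper13.SF.Rule
import Pool.Agent.Helper27.EB.Defs

/-!
# Project SF (MP_eb515b_lc), Baire side: definitions

`Blob`: a labelled piece in coordinates relative to its centre `0`.  An arrangement `𝒜 : ℕ → ℤ × ℤ → Option Blob` gives for each level
and each cell the blob with that centre.
-/

set_option autoImplicit false

namespace SF

/-- sup distance -/
def ds (p q : ℤ × ℤ) : ℤ := max |p.1 - q.1| |p.2 - q.2|

/-- A labelled piece: its cells and their labels. -/
structure Blob where
  Mem : ℤ × ℤ → Prop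
  lab : ℤ × ℤ → Lab

/-- the label of the cells outside -/
def outl (p : ℤ × ℤ) : Lab := ⟨Tau.O, decide ((p.1 + p.2) % 2 = 0), 0, 0, false, 0⟩

open Classical in
/-- the labels of the piece, extended by `O` -/
noncomputable def Blob.ext (B : Blob) (p : ℤ × ℤ) : Lab := if B.Mem p then B.lab p else outl p

/-- A correct piece. -/
structure Blob.Ok (B : Blob) : Prop where
  /-- the cells next to the complement have the label `I` -/
  inn : ∀ p, B.Mem p → (∃ q, ds p q ≤ 1 ∧ ¬ B.Mem q) → (B.lab p).tau = Tau.I
  /-- the rule holds everywhere for the extended labels -/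
  val : ∀ v, Rule B.ext v

/-- The parameters: radius, avoidance radius, separation, window. -/
structure Par where
  R : ℕ → ℤ
  A : ℕ → ℤ
  K : ℕ → ℤ
  W : ℕ → ℤ
  hA : ∀ n, R n + 8 ≤ A n
  hR : ∀ n, 8 ≤ R n
  hK : ∀ n, 2 * R n + 8 < K n
  hW : ∀ m n, m < n → R n + A m + 8 ≤ W n

/-- the blob of level `m` with centre `v` is inside, with a margin -/
def Ins (P : Par) (m : ℕ) (v : ℤ × ℤ) (Mem : ℤ × ℤ → Prop) : Prop :=
  ∀ p q, ds v p ≤ P.A m + 4 → ds p q ≤ 4 → Mem q

/-- the blob of level `m` with centre `v` is outside, with a margin -/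
def Out (P : Par) (m : ℕ) (v : ℤ × ℤ) (Mem : ℤ × ℤ → Prop) : Prop :=
  ∀ p q, ds v p ≤ P.A m + 4 → ds p q ≤ 4 → ¬ Mem q

/-- A correct arrangement of the levels `< n`. -/
structure Nice (P : Par) (n : ℕ) (A : ℕ → ℤ × ℤ → Option Blob) : Prop where
  ok : ∀ m v C, m < n → A m v = some C → C.Ok ∧ ∀ p, C.Mem p → ds 0 p ≤ P.R m
  sep : ∀ m v v' C C', m < n → A m v = some C → A m v' = some C' → v ≠ v' → P.K m ≤ ds v v'
  lb : ∀ m m' v v' C C', m < m' → m' < n → A m v = some C → A m' v' = some C' →
    Ins P m v (fun q => C'.Mem (q - v')) ∨ Out P m v (fun q => C'.Mem (q - v'))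
  sub : ∀ m m' v v' C C', m < m' → m' < n → A m v = some C → A m' v' = some C' →
    ∀ p, C.Mem (p - v) → C'.Mem (p - v') → C'.lab (p - v') = C.lab (p - v)

/-- `B` with centre `0` is a correct piece of level `n` over the arrangement `A`. -/
structure Good (P : Par) (n : ℕ) (A : ℕ → ℤ × ℤ → Option Blob) (B : Blob) : Prop where
  ok : B.Ok
  rad : ∀ p, B.Mem p → ds 0 p ≤ P.R n
  core : ∀ p, ds 0 p ≤ 2 → B.Mem p
  lb : ∀ m v C, m < n → A m v = some C → Ins P m v B.Mem ∨ Out P m v B.Mem
  sub : ∀ m v C, m < n → A m v = some C → ∀ p, C.Mem (p - v) → B.Mem p → B.lab p = C.lab (p - v)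

/-- The extension statement: a piece of level `n` exists over every correct arrangement in the window. -/
def Ext (P : Par) : Prop :=
  ∀ n A, Nice P n A → (∀ m v, A m v ≠ none → m < n ∧ ds 0 v ≤ P.W n) → ∃ B, Good P n A B

open Classical in
/-- the chosen piece -/
noncomputable def psi (P : Par) (n : ℕ) (A : ℕ → ℤ × ℤ → Option Blob) : Option Blob :=
  if h : ∃ B, Good P n A B then some h.choose else none

open Classical in
/-- the restriction of an arrangement to the window -/
noncomputable def res (P : Par) (n : ℕ) (A : ℕ → ℤ × ℤ → Option Blob) : ℕ → ℤ × ℤ → Option Blob :=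
  fun m v => if m < n ∧ ds 0 v ≤ P.W n then A m v else none

/-- an action of `ℤ × ℤ` on `X` (only the formulas) -/
structure Act (X : Type) where
  T : ℤ × ℤ → X → X
  zero : ∀ x, T 0 x = x
  add : ∀ u v x, T (u + v) x = T u (T v x)

open Classical in
/-- The piece of level `n` with centre `x`. -/
noncomputable def beta (P : Par) {X : Type} (a : Act X) (Z : ℕ → Set X) (n : ℕ) (x : X) : Option Blob :=
  if x ∈ Z n then psi P n (fun m v => if _h : m < n ∧ ds 0 v ≤ P.W n then beta P a Z m (a.T v x) else none)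
  else none
termination_by n
decreasing_by exact _h.1

theorem beta_eq (P : Par) {X : Type} (a : Act X) (Z : ℕ → Set X) (n : ℕ) (x : X) [Decidable (x ∈ Z n)] :
    beta P a Z n x = if x ∈ Z n then psi P n (res P n fun m v => beta P a Z m (a.T v x)) else none := by
  rw [beta]
  unfold res
  congr

/-- functions with countable range and measurable fibres -/
def CM {X S : Type} [MeasurableSpace X] (f : X → S) : Prop := (Set.range f).Countable ∧ EB.Ms f

end SF
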