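import Pool.Agent.Helper13.SF.Blob

/-!
# SFB-1: functions with countable range and measurable fibres

`beta_cm`: strong induction on `n` with `beta_eq`; `res P n (fun m v => beta P a Z m (a.T v x))` depends only on the finitely many
`beta P a Z m (a.T v x)`, `m < n`, `ds 0 v ≤ W n` (a finite set of pairs `(m, v)`): it is `F (fun i : ι => f i x)` with `ι` finite.
-/

set_option autoImplicit false

namespace SF

variable {X S U : Type} [MeasurableSpace X]

theorem CM.set {f : X → S} (hf : CM f) (E : Set S) : MeasurableSet {x | f x ∈ E} := by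
  have h : {x | f x ∈ E} = ⋃ s ∈ E ∩ Set.range f, {x | f x = s} := by
    ext x
    simp
  rw [h]
  exact MeasurableSet.biUnion (hf.1.mono Set.inter_subset_right) fun s _ => hf.2 s

theorem CM.comp {f : X → S} (hf : CM f) (F : S → U) : CM fun x => F (f x) := by
  refine ⟨?_, fun u => hf.set {s | F s = u}⟩
  refine (hf.1.image F).mono ?_
  rintro _ ⟨x, rfl⟩
  exact ⟨f x, ⟨x, rfl⟩, rfl⟩

theorem CM.pi {ι : Type} [Finite ι] {f : ι → X → S} (hf : ∀ i, CM (f i)) : CM fun x i => f i x := by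
  refine ⟨?_, EB.Ms.pi fun i => (hf i).2⟩
  refine (Set.countable_univ_pi fun i => (hf i).1).mono ?_
  rintro _ ⟨x, rfl⟩ i _
  exact ⟨x, rfl⟩

open Classical in
theorem CM.ite {E : Set X} (hE : MeasurableSet E) {f g : X → S} (hf : CM f) (hg : CM g) :
    CM fun x => if x ∈ E then f x else g x := by
  refine ⟨?_, fun s => ?_⟩
  · refine (hf.1.union hg.1).mono ?_
    rintro _ ⟨x, rfl⟩
    by_cases hx : x ∈ E
    · left
      exact ⟨x, by simp [hx]⟩
    · right
      exact ⟨x, by simp [hx]⟩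
  · have h : {x | (if x ∈ E then f x else g x) = s} = (E ∩ {x | f x = s}) ∪ (Eᶜ ∩ {x | g x = s}) := by
      ext x
      by_cases hx : x ∈ E <;> simp [hx]
    rw [h]
    exact (hE.inter (hf.2 s)).union (hE.compl.inter (hg.2 s))

theorem CM.const (s : S) : CM fun _ : X => s := by
  refine ⟨(Set.countable_singleton s).mono ?_, EB.Ms.const s⟩
  rintro _ ⟨x, rfl⟩
  rfl

theorem CM.precomp {f : X → S} (hf : CM f) {T : X → X} (hT : Measurable T) : CM fun x => f (T x) := by
  refine ⟨hf.1.mono ?_, hf.2.precomp hT⟩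
  rintro _ ⟨x, rfl⟩
  exact ⟨T x, rfl⟩

theorem finite_win (n : ℕ) (w : ℤ) : {p : ℕ × (ℤ × ℤ) | p.1 < n ∧ ds 0 p.2 ≤ w}.Finite := by
  refine ((Set.finite_Iio n).prod (Set.finite_Icc ((-w, -w) : ℤ × ℤ) (w, w))).subset ?_
  rintro ⟨m, u, v⟩ ⟨hm, hd⟩
  refine ⟨hm, ?_⟩
  have h1 : |u| ≤ w := by
    have := (le_max_left |(0 : ℤ) - u| |(0 : ℤ) - v|).trans hd
    simpa using this
  have h2 : |v| ≤ w := by
    have := (le_max_right |(0 : ℤ) - u| |(0 : ℤ) - v|).trans hd
    simpa using this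
  exact ⟨⟨(abs_le.1 h1).1, (abs_le.1 h2).1⟩, ⟨(abs_le.1 h1).2, (abs_le.1 h2).2⟩⟩

theorem beta_cm (P : Par) (a : Act X) (hT : ∀ v, Measurable (a.T v)) (Z : ℕ → Set X)
    (hZ : ∀ n, MeasurableSet (Z n)) (n : ℕ) : CM (beta P a Z n) := by
  classical
  induction n using Nat.strong_induction_on with
  | _ n ih =>
    set I : Set (ℕ × (ℤ × ℤ)) := {p | p.1 < n ∧ ds 0 p.2 ≤ P.W n} with hI
    have hfin : Finite I := (finite_win n (P.W n)).to_subtype
    set F : (I → Option Blob) → Option Blob := fun u =>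
      psi P n (fun m v => if h : (m, v) ∈ I then u ⟨(m, v), h⟩ else none) with hF
    have h1 : CM fun x => fun i : I => beta P a Z i.1.1 (a.T i.1.2 x) :=
      CM.pi fun i => (ih i.1.1 i.2.1).precomp (hT i.1.2)
    have h2 : CM fun x => if x ∈ Z n then F (fun i : I => beta P a Z i.1.1 (a.T i.1.2 x)) else none :=
      CM.ite (hZ n) (h1.comp F) (CM.const none)
    have h3 : beta P a Z n
        = fun x => if x ∈ Z n then F (fun i : I => beta P a Z i.1.1 (a.T i.1.2 x)) else none := by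
      funext x
      rw [beta_eq]
      congr 1
    rw [h3]
    exact h2

end SF
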