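import Pool.Agent.Helper13.SF.Blob

/-!
# SFB-2: the arrangement of the chosen pieces is correct

Induction on `n` for all `x`.  Let `A x m v = beta P a Z m (a.T v x)`.  `A x m v = A (a.T w x) m (v - w)` (`a.add`, `a.zero`).  If `Nice P n (A y)` then
`res P n (A y)` is correct (a restriction), lives in the window, so `hE` gives a `Good` piece and `beta P a Z n y = some C` implies
`Good P n (res P n (A y)) C` (`beta_eq`, `psi`, `choose_spec`).  `good_full`: then `Good P n (A y) C`: for a centre `v` outside of the window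
`ds 0 v > W n ≥ R n + A m + 8`, while the cells of `C` have `ds 0 q ≤ R n` and `ds v q ≤ A m + 8` for the cells in question: `Out`; for `sub`: the
cells `p` of the piece `(m, v)` have `ds v p ≤ R m ≤ A m` (from `Nice.ok`).
Then `Nice P (n + 1) (A x)`: the new pairs are `m < n = m'`: use `good_full` for `y = a.T v' x` and shift by `v'`.
-/

set_option autoImplicit false

namespace SF

/-- the arrangement around `x` -/
noncomputable def arr (P : Par) {X : Type} (a : Act X) (Z : ℕ → Set X) (x : X) : ℕ → ℤ × ℤ → Option Blob :=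
  fun m v => beta P a Z m (a.T v x)

/-- `Z n` is `K n`-separated -/
def Sepd (P : Par) {X : Type} (a : Act X) (Z : ℕ → Set X) : Prop :=
  ∀ n x v v', a.T v x ∈ Z n → a.T v' x ∈ Z n → v ≠ v' → P.K n ≤ ds v v'

theorem ds_comm (p q : ℤ × ℤ) : ds p q = ds q p := by
  unfold ds
  rw [abs_sub_comm p.1, abs_sub_comm p.2]

theorem ds_tri (p q r : ℤ × ℤ) : ds p r ≤ ds p q + ds q r := by
  unfold ds
  have h1 := abs_sub_le p.1 q.1 r.1
  have h2 := abs_sub_le p.2 q.2 r.2
  have h3 := le_max_left |p.1 - q.1| |p.2 - q.2|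
  have h4 := le_max_right |p.1 - q.1| |p.2 - q.2|
  have h5 := le_max_left |q.1 - r.1| |q.2 - r.2|
  have h6 := le_max_right |q.1 - r.1| |q.2 - r.2|
  apply max_le
  · linarith
  · linarith

theorem ds_sub (p q w : ℤ × ℤ) : ds (p - w) (q - w) = ds p q := by
  unfold ds
  simp

theorem arr_shift (P : Par) {X : Type} (a : Act X) (Z : ℕ → Set X) (x : X) (w : ℤ × ℤ) (m : ℕ)
    (v : ℤ × ℤ) : arr P a Z (a.T w x) m v = arr P a Z x m (v + w) := by
  unfold arr
  rw [a.add]

theorem beta_mem (P : Par) {X : Type} (a : Act X) (Z : ℕ → Set X) (n : ℕ) (x : X) (C : Blob)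
    (h : beta P a Z n x = some C) : x ∈ Z n := by
  classical
  by_contra hx
  rw [beta_eq, if_neg hx] at h
  simp at h

theorem res_some {P : Par} {n : ℕ} {A : ℕ → ℤ × ℤ → Option Blob} {m : ℕ} {v : ℤ × ℤ} {C : Blob}
    (h : res P n A m v = some C) : A m v = some C ∧ m < n ∧ ds 0 v ≤ P.W n := by
  unfold res at h
  split_ifs at h with h1
  exact ⟨h, h1⟩

theorem nice_res {P : Par} {n : ℕ} {A : ℕ → ℤ × ℤ → Option Blob} (h : Nice P n A) :
    Nice P n (res P n A) where
  ok := fun m v C hm hC => h.ok m v C hm (res_some hC).1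
  sep := fun m v v' C C' hm hC hC' => h.sep m v v' C C' hm (res_some hC).1 (res_some hC').1
  lb := fun m m' v v' C C' hm hm' hC hC' =>
    h.lb m m' v v' C C' hm hm' (res_some hC).1 (res_some hC').1
  sub := fun m m' v v' C C' hm hm' hC hC' =>
    h.sub m m' v v' C C' hm hm' (res_some hC).1 (res_some hC').1

theorem psi_good (P : Par) (hE : Ext P) {n : ℕ} {A : ℕ → ℤ × ℤ → Option Blob} (h : Nice P n A) :
    ∃ C, psi P n (res P n A) = some C ∧ Good P n (res P n A) C := by
  have h1 : ∃ B, Good P n (res P n A) B := by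
    apply hE n _ (nice_res h)
    intro m v hmv
    obtain ⟨C, hC⟩ := Option.ne_none_iff_exists'.1 hmv
    exact (res_some hC).2
  refine ⟨h1.choose, ?_, h1.choose_spec⟩
  unfold psi
  rw [dif_pos h1]

theorem good_full {P : Par} {n : ℕ} {A : ℕ → ℤ × ℤ → Option Blob} (h : Nice P n A) {C : Blob}
    (hC : Good P n (res P n A) C) : Good P n A C where
  ok := hC.ok
  rad := hC.rad
  core := hC.core
  lb := by
    intro m v C' hm hC'
    by_cases hv : ds 0 v ≤ P.W n
    · apply hC.lb m v C' hm
      unfold res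
      rw [if_pos ⟨hm, hv⟩, hC']
    · right
      intro p q hp hq hCq
      have h1 := hC.rad q hCq
      have h2 := P.hW m n hm
      have h3 := ds_tri 0 q v
      have h4 := ds_tri q p v
      rw [ds_comm q p, ds_comm p v] at h4
      omega
  sub := by
    intro m v C' hm hC' p hp hp'
    by_cases hv : ds 0 v ≤ P.W n
    · apply hC.sub m v C' hm _ p hp hp'
      unfold res
      rw [if_pos ⟨hm, hv⟩, hC']
    · exfalso
      have h1 := hC.rad p hp'
      have h2 := P.hW m n hm
      have h3 := (h.ok m v C' hm hC').2 _ hp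
      have h4 := P.hA m
      have h5 := ds_tri 0 p v
      have h6 : ds p v = ds 0 (p - v) := by
        have := ds_sub p v v
        rw [sub_self, ds_comm] at this
        exact this.symm
      omega

theorem good_of_nice (P : Par) (hE : Ext P) {X : Type} (a : Act X) (Z : ℕ → Set X) (n : ℕ) (x : X)
    (h : Nice P n (arr P a Z x)) (C : Blob) (hC : beta P a Z n x = some C) :
    Good P n (arr P a Z x) C := by
  classical
  obtain ⟨C', h1, h2⟩ := psi_good P hE h
  have hx := beta_mem P a Z n x C hC
  rw [beta_eq, if_pos hx] at hC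
  have h3 : psi P n (res P n (arr P a Z x)) = some C := hC
  rw [h1] at h3
  obtain rfl : C' = C := Option.some_inj.1 h3
  exact good_full h h2

theorem nice_beta (P : Par) (hE : Ext P) {X : Type} (a : Act X) (Z : ℕ → Set X) (hZ : Sepd P a Z)
    (n : ℕ) (x : X) : Nice P n (arr P a Z x) := by
  have hsep : ∀ m v v' C C' (x : X), arr P a Z x m v = some C → arr P a Z x m v' = some C' →
      v ≠ v' → P.K m ≤ ds v v' := fun m v v' C C' x hC hC' hne =>
    hZ m x v v' (beta_mem P a Z m _ C hC) (beta_mem P a Z m _ C' hC') hne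
  induction n generalizing x with
  | zero =>
    refine ⟨?_, ?_, ?_, ?_⟩
    · intro m v C hm; omega
    · intro m v v' C C' hm; omega
    · intro m m' v v' C C' hm hm'; omega
    · intro m m' v v' C C' hm hm'; omega
  | succ n ih =>
    have hg : ∀ v C, arr P a Z x n v = some C → Good P n (arr P a Z (a.T v x)) C :=
      fun v C hC => good_of_nice P hE a Z n (a.T v x) (ih _) C hC
    have hsh : ∀ m v v', arr P a Z (a.T v' x) m (v - v') = arr P a Z x m v := by
      intro m v v'
      rw [arr_shift, sub_add_cancel]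
    refine ⟨?_, ?_, ?_, ?_⟩
    · intro m v C hm hC
      rcases Nat.lt_succ_iff_lt_or_eq.1 hm with hm | rfl
      · exact (ih x).ok m v C hm hC
      · exact ⟨(hg v C hC).ok, (hg v C hC).rad⟩
    · intro m v v' C C' _ hC hC' hne
      exact hsep m v v' C C' x hC hC' hne
    · intro m m' v v' C C' hmm hm' hC hC'
      rcases Nat.lt_succ_iff_lt_or_eq.1 hm' with hm' | rfl
      · exact (ih x).lb m m' v v' C C' hmm hm' hC hC'
      · rcases (hg v' C' hC').lb m (v - v') C hmm ((hsh m v v').trans hC) with h | h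
        · left
          intro p q hp hq
          exact h (p - v') (q - v') (by rwa [ds_sub]) (by rwa [ds_sub])
        · right
          intro p q hp hq
          exact h (p - v') (q - v') (by rwa [ds_sub]) (by rwa [ds_sub])
    · intro m m' v v' C C' hmm hm' hC hC' p hp hp'
      rcases Nat.lt_succ_iff_lt_or_eq.1 hm' with hm' | rfl
      · exact (ih x).sub m m' v v' C C' hmm hm' hC hC' p hp hp'
      · have e : p - v' - (v - v') = p - v := by abel
        have h := (hg v' C' hC').sub m (v - v') C hmm ((hsh m v v').trans hC) (p - v')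
          (by rw [e]; exact hp) hp'
        rwa [e] at h

theorem good_beta (P : Par) (hE : Ext P) {X : Type} (a : Act X) (Z : ℕ → Set X) (hZ : Sepd P a Z)
    (n : ℕ) (x : X) (C : Blob) (hC : beta P a Z n x = some C) : Good P n (arr P a Z x) C :=
  good_of_nice P hE a Z n x (nice_beta P hE a Z hZ n x) C hC

theorem beta_some (P : Par) (hE : Ext P) {X : Type} (a : Act X) (Z : ℕ → Set X) (hZ : Sepd P a Z)
    (n : ℕ) (x : X) (hx : x ∈ Z n) : ∃ C, beta P a Z n x = some C := by
  classical
  obtain ⟨C, h1, _⟩ := psi_good P hE (nice_beta P hE a Z hZ n x)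
  refine ⟨C, ?_⟩
  rw [beta_eq, if_pos hx]
  exact h1

/-- two pieces which contain `x` give it the same label -/
theorem lab_unique (P : Par) (hE : Ext P) {X : Type} (a : Act X)
    (Z : ℕ → Set X) (hZ : Sepd P a Z) (x : X) (m m' : ℕ) (v v' : ℤ × ℤ) (C C' : Blob)
    (h : arr P a Z x m v = some C) (h' : arr P a Z x m' v' = some C') (hm : C.Mem (-v)) (hm' : C'.Mem (-v')) :
    C.lab (-v) = C'.lab (-v') := by
  have key : ∀ (m m' : ℕ) (v v' : ℤ × ℤ) (C C' : Blob), arr P a Z x m v = some C →
      arr P a Z x m' v' = some C' → C.Mem (-v) → C'.Mem (-v') → m < m' →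
      C'.lab (-v') = C.lab (-v) := by
    intro m m' v v' C C' h h' hm hm' hlt
    have := (nice_beta P hE a Z hZ (m' + 1) x).sub m m' v v' C C' hlt (Nat.lt_succ_self _) h h' 0
    simp only [zero_sub] at this
    exact this hm hm'
  rcases lt_trichotomy m m' with hlt | rfl | hlt
  · exact (key m m' v v' C C' h h' hm hm' hlt).symm
  · by_cases hv : v = v'
    · subst hv
      rw [h] at h'
      obtain rfl : C = C' := Option.some_inj.1 h'
      rfl
    · exfalso
      have hN := nice_beta P hE a Z hZ (m + 1) x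
      have h1 := hN.sep m v v' C C' (Nat.lt_succ_self _) h h' hv
      have h2 := (hN.ok m v C (Nat.lt_succ_self _) h).2 _ hm
      have h3 := (hN.ok m v' C' (Nat.lt_succ_self _) h').2 _ hm'
      have h4 := ds_tri v 0 v'
      have h5 : ∀ u : ℤ × ℤ, ds 0 (-u) = ds u 0 := by
        intro u
        unfold ds
        simp
      have h6 := P.hK m
      rw [h5] at h2 h3
      rw [ds_comm 0 v'] at h4
      omega
  · exact key m' m v' v C' C h' h hm' hm hlt

end SF
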