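import Pool.Agent.Helper13.SF.RuleA

/-!
# SF, Baire side: the rule and translations, the rule depends on the cells at distance `≤ 2`
-/

set_option autoImplicit false

namespace SF

variable {H : ℤ × ℤ → Lab} {w v : ℤ × ℤ}

theorem sh_InB (p : ℤ × ℤ) : InB v p ↔ InB (v - w) (p - w) := by
  unfold InB
  simp only [Prod.fst_sub, Prod.snd_sub]
  constructor <;> rintro ⟨h1, h2⟩ <;> constructor <;> omega

theorem sh_pt (p : ℤ × ℤ) (a b : ℤ) : ((p.1 + a, p.2 + b) : ℤ × ℤ) - w = ((p - w).1 + a, (p - w).2 + b) := by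
  ext
  · simp only [Prod.fst_sub]
    ring
  · simp only [Prod.snd_sub]
    ring

theorem sh10 (p : ℤ × ℤ) : ((p.1 + 1, p.2) : ℤ × ℤ) - w = ((p - w).1 + 1, (p - w).2) := by
  ext
  · simp only [Prod.fst_sub]
    ring
  · simp only [Prod.snd_sub]

theorem shm10 (p : ℤ × ℤ) : ((p.1 - 1, p.2) : ℤ × ℤ) - w = ((p - w).1 - 1, (p - w).2) := by
  ext
  · simp only [Prod.fst_sub]
    ring
  · simp only [Prod.snd_sub]

theorem sh01 (p : ℤ × ℤ) : ((p.1, p.2 + 1) : ℤ × ℤ) - w = ((p - w).1, (p - w).2 + 1) := by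
  ext
  · simp only [Prod.fst_sub]
  · simp only [Prod.snd_sub]
    ring

theorem sh0m1 (p : ℤ × ℤ) : ((p.1, p.2 - 1) : ℤ × ℤ) - w = ((p - w).1, (p - w).2 - 1) := by
  ext
  · simp only [Prod.fst_sub]
  · simp only [Prod.snd_sub]
    ring

theorem sh11 (p : ℤ × ℤ) : ((p.1 + 1, p.2 + 1) : ℤ × ℤ) - w = ((p - w).1 + 1, (p - w).2 + 1) :=
  sh_pt p 1 1

theorem shm11 (p : ℤ × ℤ) : ((p.1 - 1, p.2 + 1) : ℤ × ℤ) - w = ((p - w).1 - 1, (p - w).2 + 1) := by
  ext
  · simp only [Prod.fst_sub]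
    ring
  · simp only [Prod.snd_sub]
    ring

theorem sh_LW (p : ℤ × ℤ) : LW (fun q => H (q - w)) p ↔ LW H (p - w) := by
  unfold LW
  dsimp only
  rw [shm10]

theorem sh_RW (p : ℤ × ℤ) : RW (fun q => H (q - w)) p ↔ RW H (p - w) := by
  unfold RW
  dsimp only
  rw [sh10]

theorem sh_Mixed (v : ℤ × ℤ) : Mixed (fun q => H (q - w)) v ↔ Mixed H (v - w) := by
  unfold Mixed
  constructor
  · rintro ⟨⟨p, h1, h2⟩, q, h3, h4⟩
    exact ⟨⟨p - w, (sh_InB p).1 h1, h2⟩, q - w, (sh_InB q).1 h3, h4⟩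
  · rintro ⟨⟨p, h1, h2⟩, q, h3, h4⟩
    refine ⟨⟨p + w, ?_, ?_⟩, q + w, ?_, ?_⟩
    · rw [sh_InB (w := w), add_sub_cancel_right]
      exact h1
    · dsimp only
      rw [add_sub_cancel_right]
      exact h2
    · rw [sh_InB (w := w), add_sub_cancel_right]
      exact h3
    · dsimp only
      rw [add_sub_cancel_right]
      exact h4

theorem rule_shift (h : Rule H (v - w)) : Rule (fun q => H (q - w)) v where
  r1 hm p hp := h.r1 ((sh_Mixed v).1 hm) (p - w) ((sh_InB p).1 hp)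
  r1c := by
    have := h.r1c
    rwa [← sh10, ← sh01, ← sh11] at this
  r2 := by
    have := h.r2
    rwa [← sh10, ← sh01, ← sh0m1, ← shm10] at this
  r3 hm f hf := by
    have := h.r3 (fun h1 => hm ((sh_Mixed v).2 h1)) f hf
    rwa [← sh10, ← sh01, ← sh11] at this
  r4 u hu hio := by
    have h1 := h.r4 (u - w) (by
      simp only [List.mem_cons, List.not_mem_nil, or_false] at hu ⊢
      rcases hu with rfl | rfl
      · left
        exact sh10 v
      · right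
        exact sh01 v) hio
    exact h1
  r5 hm p q hp hq h1 h2 := h.r5 ((sh_Mixed v).1 hm) (p - w) (q - w) ((sh_InB p).1 hp) ((sh_InB q).1 hq) h1 h2
  r6 := by
    rintro ⟨r, hr, hr'⟩ hm p q hp hq h1 h2
    exact h.r6 ⟨r - w, (sh_InB r).1 hr, (sh_RW r).1 hr'⟩ ((sh_Mixed v).1 hm) (p - w) (q - w)
      ((sh_InB p).1 hp) ((sh_InB q).1 hq) h1 h2
  r6' := by
    rintro ⟨r, hr, hr'⟩ hm p q hp hq h1 h2
    exact h.r6' ⟨r - w, (sh_InB r).1 hr, (sh_LW r).1 hr'⟩ ((sh_Mixed v).1 hm) (p - w) (q - w)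
      ((sh_InB p).1 hp) ((sh_InB q).1 hq) h1 h2
  r7 := by
    intro h0
    have h1 := h.r7 ((sh_LW v).1 h0)
    rw [← sh01, ← sh11, ← shm11, ← sh10] at h1
    refine ⟨fun h2 => h1.1 ((sh_LW _).1 h2), fun h2 => h1.2.1 ((sh_LW _).1 h2),
      fun h2 => h1.2.2 ((sh_LW _).1 h2)⟩
  r7' := by
    intro h0
    have h1 := h.r7' ((sh_RW v).1 h0)
    rw [← sh01, ← sh11, ← shm11, ← shm10] at h1
    refine ⟨fun h2 => h1.1 ((sh_RW _).1 h2), fun h2 => h1.2.1 ((sh_RW _).1 h2),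
      fun h2 => h1.2.2 ((sh_RW _).1 h2)⟩

variable {F F' : ℤ × ℤ → Lab}

/-- the cells on which the rule at `v` depends -/
def Sup (v p : ℤ × ℤ) : Prop := ds v p ≤ 2 ∧ |p.1 - v.1| + |p.2 - v.2| ≤ 3

theorem rule_congr' (he : ∀ p, Sup v p → F p = F' p) (h : Rule F v) : Rule F' v := by
  obtain ⟨vx, vy⟩ := v
  have hdd : ∀ x y, vx - 2 ≤ x → x ≤ vx + 2 → vy ≤ y → y ≤ vy + 1 → Sup (vx, vy) (x, y) := by
    intro x y h1 h2 h3 h4
    refine ⟨?_, ?_⟩
    · rw [ds_lt]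
      dsimp only
      omega
    · dsimp only
      have h5 : |x - vx| ≤ 2 := abs_le.2 (by omega)
      have h6 : |y - vy| ≤ 1 := abs_le.2 (by omega)
      omega
  have hd : ∀ p : ℤ × ℤ, InB (vx, vy) p → Sup (vx, vy) p := by
    rintro ⟨x, y⟩ ⟨h1, h2⟩
    dsimp only at h1 h2
    exact hdd x y (by omega) (by omega) (by omega) (by omega)
  have b00 : InB (vx, vy) (vx, vy) := ⟨Or.inl rfl, Or.inl rfl⟩
  have b10 : InB (vx, vy) (vx + 1, vy) := ⟨Or.inr rfl, Or.inl rfl⟩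
  have b01 : InB (vx, vy) (vx, vy + 1) := ⟨Or.inl rfl, Or.inr rfl⟩
  have b11 : InB (vx, vy) (vx + 1, vy + 1) := ⟨Or.inr rfl, Or.inr rfl⟩
  have e := fun p hp => (he p hp).symm
  have e00 := e _ (hd _ b00)
  have e10 := e _ (hd _ b10)
  have e01 := e _ (hd _ b01)
  have e11 := e _ (hd _ b11)
  have em10 := e _ (hdd (vx - 1) vy (by omega) (by omega) (by omega) (by omega))
  have e0m1 := e (vx, vy - 1) (by
    refine ⟨?_, ?_⟩
    · rw [ds_lt]
      dsimp only
      omega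
    · dsimp only
      rw [sub_self, abs_zero, show vy - 1 - vy = -1 by ring, abs_neg, abs_one]
      norm_num)
  have em11 := e _ (hdd (vx - 1) (vy + 1) (by omega) (by omega) (by omega) (by omega))
  have hM : Mixed F' (vx, vy) → Mixed F (vx, vy) := by
    rintro ⟨⟨p, h1, h2⟩, q, h3, h4⟩
    rw [e p (hd p h1)] at h2
    rw [e q (hd q h3)] at h4
    exact ⟨⟨p, h1, h2⟩, q, h3, h4⟩
  have hM' : Mixed F (vx, vy) → Mixed F' (vx, vy) := by
    rintro ⟨⟨p, h1, h2⟩, q, h3, h4⟩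
    rw [← e p (hd p h1)] at h2
    rw [← e q (hd q h3)] at h4
    exact ⟨⟨p, h1, h2⟩, q, h3, h4⟩
  have hL : ∀ x y, vx - 1 ≤ x → x ≤ vx + 1 → vy ≤ y → y ≤ vy + 1 → LW F' (x, y) → LW F (x, y) := by
    rintro x y a1 a2 a3 a4 ⟨h1, h2⟩
    rw [e _ (hdd _ _ (by omega) (by omega) (by omega) (by omega))] at h1
    dsimp only at h2
    rw [e _ (hdd _ _ (by omega) (by omega) (by omega) (by omega))] at h2
    exact ⟨h1, h2⟩
  have hR : ∀ x y, vx - 1 ≤ x → x ≤ vx + 1 → vy ≤ y → y ≤ vy + 1 → RW F' (x, y) → RW F (x, y) := by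
    rintro x y a1 a2 a3 a4 ⟨h1, h2⟩
    rw [e _ (hdd _ _ (by omega) (by omega) (by omega) (by omega))] at h1
    dsimp only at h2
    rw [e _ (hdd _ _ (by omega) (by omega) (by omega) (by omega))] at h2
    exact ⟨h1, h2⟩
  refine ⟨?_, ?_, ?_, ?_, ?_, ?_, ?_, ?_, ?_, ?_⟩
  · intro hm p hp
    rw [e p (hd p hp)]
    exact h.r1 (hM hm) p hp
  · have := h.r1c
    dsimp only at this ⊢
    rw [e00, e10, e01, e11]
    exact this
  · have := h.r2
    dsimp only at this ⊢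
    rw [e00, e10, e01, em10, e0m1]
    exact this
  · intro hm f hf
    have := h.r3 (fun h1 => hm (hM' h1)) f hf
    unfold dl2 at this ⊢
    dsimp only at this ⊢
    rw [e00, e10, e01, e11]
    exact this
  · intro u hu hio
    have h1 := h.r4 u hu
    simp only [List.mem_cons, List.not_mem_nil, or_false] at hu
    have hu' : InB (vx, vy) u := by
      rcases hu with rfl | rfl
      · exact b10
      · exact b01
    unfold IO at hio h1
    rw [e00, e u (hd u hu')] at hio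
    rw [e00, e u (hd u hu')]
    exact h1 hio
  · intro hm p q hp hq h1 h2
    rw [e p (hd p hp)] at h1 ⊢
    rw [e q (hd q hq)] at h2 ⊢
    exact h.r5 (hM hm) p q hp hq h1 h2
  · rintro ⟨r, hr, hr'⟩ hm p q hp hq h1 h2
    rw [e p (hd p hp)] at h1 ⊢
    rw [e q (hd q hq)] at h2 ⊢
    refine h.r6 ⟨r, hr, ?_⟩ (hM hm) p q hp hq h1 h2
    obtain ⟨x1, x2⟩ := hr
    exact hR r.1 r.2 (by dsimp only at *; omega) (by dsimp only at *; omega) (by dsimp only at *; omega)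
      (by dsimp only at *; omega) hr'
  · rintro ⟨r, hr, hr'⟩ hm p q hp hq h1 h2
    rw [e p (hd p hp)] at h1 ⊢
    rw [e q (hd q hq)] at h2 ⊢
    refine h.r6' ⟨r, hr, ?_⟩ (hM hm) p q hp hq h1 h2
    obtain ⟨x1, x2⟩ := hr
    exact hL r.1 r.2 (by dsimp only at *; omega) (by dsimp only at *; omega) (by dsimp only at *; omega)
      (by dsimp only at *; omega) hr'
  · intro h0
    have h1 := h.r7 (hL vx vy (by omega) (by omega) (by omega) (by omega) h0)
    unfold Tick dl2 at h1 ⊢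
    dsimp only at h1 ⊢
    rw [e00, e10, e01, e11, em11]
    refine ⟨fun h2 => h1.1 ?_, fun h2 => h1.2.1 ?_, fun h2 => h1.2.2 ?_⟩
    · exact hL _ _ (by omega) (by omega) (by omega) (by omega) h2
    · exact hL _ _ (by omega) (by omega) (by omega) (by omega) h2
    · exact hL _ _ (by omega) (by omega) (by omega) (by omega) h2
  · intro h0
    have h1 := h.r7' (hR vx vy (by omega) (by omega) (by omega) (by omega) h0)
    unfold Tick dl2 at h1 ⊢
    dsimp only at h1 ⊢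
    rw [e00, em10, e01, e11, em11]
    refine ⟨fun h2 => h1.1 ?_, fun h2 => h1.2.1 ?_, fun h2 => h1.2.2 ?_⟩
    · exact hR _ _ (by omega) (by omega) (by omega) (by omega) h2
    · exact hR _ _ (by omega) (by omega) (by omega) (by omega) h2
    · exact hR _ _ (by omega) (by omega) (by omega) (by omega) h2

theorem rule_congr (he : ∀ p, ds v p ≤ 2 → F p = F' p) (h : Rule F v) : Rule F' v :=
  rule_congr' (fun p hp => he p hp.1) h

theorem rule_congr3 (he : ∀ p : ℤ × ℤ, |p.1 - v.1| + |p.2 - v.2| ≤ 3 → F p = F' p) (h : Rule F v) :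
    Rule F' v :=
  rule_congr' (fun p hp => he p hp.2) h

end SF
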