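import Pool.Agent.Helper13.SF.RuleB
import Pool.Agent.Helper13.SF.Shift
import Pool.Agent.Helper13.SF.NiceB
import Pool.Agent.Helper20.SF.Const

/-!
# SF, Baire side: the extension statement
-/

set_option autoImplicit false

namespace SF

open SFg

/-- the parameters -/
def par0 : Par where
  R n := (Rr n : ℤ) - 4
  A n := Am Rr n
  K n := Kk n
  W n := 4 * Rr n
  hA n := by
    have h1 := rr_ge n
    have h2 := r_le_a (R := Rr) n
    omega
  hR n := by
    have := rr_ge n
    omega
  hK n := by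
    have h1 := rr_ge n
    have h2 := r_le_a (R := Rr) n
    have h3 := k_ge' gp n
    unfold Cm at h3
    omega
  hW m n h := by
    have h1 := rr_ge n
    have h2 := k_ge' gp m
    have h3 := ll_k n m h
    have h4 := rr_ll n
    unfold Cm at h2
    omega

section
variable (n : ℕ) (A : ℕ → ℤ × ℤ → Option Blob)

/-- `p` is covered -/
def Cov (p : ℤ × ℤ) : Prop := ∃ m v C, m < n ∧ A m v = some C ∧ C.Mem (p - v)

/-- the maximal pieces -/
def IsMax (j : ℕ × (ℤ × ℤ)) : Prop :=
  j.1 < n ∧ (∃ C, A j.1 j.2 = some C) ∧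
    ∀ m' v' C', j.1 < m' → m' < n → A m' v' = some C' → ¬ C'.Mem (j.2 - v')

/-- a piece with the cells next to it -/
def Qz (j : ℕ × (ℤ × ℤ)) : Set (ℤ × ℤ) := {p | ∃ C, A j.1 j.2 = some C ∧ ∃ q, ds p q ≤ 2 ∧ C.Mem (q - j.2)}

open Classical in
/-- the label of an own cell -/
noncomputable def ownl (yb yt : ℤ) (s t : ℤ → ℤ) (G G' : ℤ × ℤ → ℤ) (p : ℤ × ℤ) : Lab :=
  ⟨if ∃ q, ds p q ≤ 1 ∧ ¬ Mm yb yt s t q then Tau.I else if ∃ q, ds p q ≤ 1 ∧ Cov n A q then Tau.O else Tau.z,
    pr p, ((G p : ℤ) : ZMod 3), ((G' p : ℤ) : ZMod 3), decide (p.2 - yb < yt - p.2),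
    ((yt - p.2 : ℤ) : ZMod 64)⟩

open Classical in
/-- the labels of the new piece -/
noncomputable def newl (yb yt : ℤ) (s t : ℤ → ℤ) (G G' : ℤ × ℤ → ℤ) (p : ℤ × ℤ) : Lab :=
  if h : ∃ c : Lab, ∃ m v C, m < n ∧ A m v = some C ∧ C.Mem (p - v) ∧ C.lab (p - v) = c then h.choose
  else ownl n A yb yt s t G G' p

end

variable {n : ℕ} {A : ℕ → ℤ × ℤ → Option Blob}

theorem ds_rad {m : ℕ} {v p : ℤ × ℤ} {C : Blob} (hN : Nice par0 n A) (hm : m < n) (hC : A m v = some C)
    (hp : C.Mem (p - v)) : ds v p ≤ par0.R m := by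
  have h := (hN.ok m v C hm hC).2 _ hp
  have e : ds v p = ds 0 (p - v) := by
    have := ds_sub v p v
    rw [sub_self] at this
    exact this.symm
  rw [e]
  exact h

theorem newl_cov (hN : Nice par0 n A) {yb yt : ℤ} {s t : ℤ → ℤ} {G G' : ℤ × ℤ → ℤ} {m : ℕ} {v p : ℤ × ℤ}
    {C : Blob} (hm : m < n) (hC : A m v = some C) (hp : C.Mem (p - v)) :
    newl n A yb yt s t G G' p = C.lab (p - v) := by
  have h : ∃ c : Lab, ∃ m v C, m < n ∧ A m v = some C ∧ C.Mem (p - v) ∧ C.lab (p - v) = c :=
    ⟨_, m, v, C, hm, hC, hp, rfl⟩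
  unfold newl
  rw [dif_pos h]
  obtain ⟨m', v', C', hm', hC', hp', he⟩ := h.choose_spec
  rw [← he]
  rcases lt_trichotomy m m' with h1 | h1 | h1
  · exact hN.sub m m' v v' C C' h1 hm' hC hC' p hp hp'
  · subst h1
    have hv : v = v' := by
      by_contra hv
      have h2 := hN.sep m v v' C C' hm hC hC' hv
      have h3 := ds_rad hN hm hC hp
      have h4 := ds_rad hN hm hC' hp'
      have h5 := ds_tri v p v'
      rw [ds_comm p v'] at h5
      have h6 := par0.hK m
      omega
    subst hv
    rw [hC] at hC'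
    rw [Option.some.inj hC']
  · exact (hN.sub m' m v' v C' C h1 hm hC' hC p hp' hp).symm

theorem newl_own {yb yt : ℤ} {s t : ℤ → ℤ} {G G' : ℤ × ℤ → ℤ} {p : ℤ × ℤ} (hp : ¬ Cov n A p) :
    newl n A yb yt s t G G' p = ownl n A yb yt s t G G' p := by
  unfold newl
  rw [dif_neg]
  rintro ⟨c, m, v, C, h1, h2, h3, _⟩
  exact hp ⟨m, v, C, h1, h2, h3⟩

theorem ds_self (p : ℤ × ℤ) : ds p p = 0 := by simp [ds]

theorem inp0 (hN : Nice par0 n A) :
    Inp Rr Kk n (fun j : {j // IsMax n A j} => j.1.1) (fun j => j.1.2.1) (fun j => j.1.2.2)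
      (fun j => Qz A j.1) where
  lt j := j.2.1
  q := by
    rintro ⟨⟨m, v⟩, hj⟩ p ⟨C, hC, q, hq, hm⟩
    dsimp only at *
    have h1 := ds_rad hN hj.1 hC hm
    have h2 := ds_tri v q p
    rw [ds_comm q p] at h2
    have h3 : ds v p ≤ Rr m := by
      have e : par0.R (m, v).1 = (Rr m : ℤ) - 4 := rfl
      omega
    have h4 := (ds_le_iff v p _).1 h3
    rw [abs_sub_comm p.1, abs_sub_comm p.2]
    exact h4
  sep := by
    rintro ⟨⟨m, v⟩, hi⟩ ⟨⟨m', v'⟩, hj⟩ h1 h2
    dsimp only at *
    subst h1
    obtain ⟨C, hC⟩ := hi.2.1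
    obtain ⟨C', hC'⟩ := hj.2.1
    have hv : v ≠ v' := by
      rintro rfl
      exact h2 rfl
    have h3 := hN.sep m v v' C C' hi.1 hC hC' hv
    exact le_max_iff.1 h3
  sep2 := by
    rintro ⟨⟨m, v⟩, hi⟩ ⟨⟨m', v'⟩, hj⟩ h1 p ⟨C', hC', q, hq, hm⟩
    dsimp only at *
    obtain ⟨C, hC⟩ := hi.2.1
    dsimp only at hC
    have h0 : ds v v ≤ par0.A m + 4 := by
      rw [ds_self]
      have h2 := par0.hA m
      have h3 := par0.hR m
      omega
    rcases hN.lb m m' v v' C C' h1 hj.1 hC hC' with h2 | h2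
    · exact absurd (h2 v v h0 (by rw [ds_self]; norm_num)) (hi.2.2 m' v' C' h1 hj.1 hC')
    · by_contra h3
      push Not at h3
      have h4 : ds v p ≤ par0.A m := by
        rw [ds_le_iff, abs_sub_comm v.1, abs_sub_comm v.2]
        exact ⟨h3.1.le, h3.2.le⟩
      have h5 := ds_tri v p q
      exact h2 q q (by omega) (by rw [ds_self]; norm_num) hm

theorem io0 (hN : Nice par0 n A) {yt yb : ℤ} {s t : ℤ → ℤ} {G G' : ℤ × ℤ → ℤ}
    (hP : Piece Rr (fun j : {j // IsMax n A j} => j.1.1) (fun j => j.1.2.1) (fun j => j.1.2.2)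
      (fun j => Qz A j.1) (Ll n) 0 yt yb s t G G') (k : ℕ) :
    ∀ m v C, m < n → n - m = k → A m v = some C →
      Ins par0 m v (Mm yb yt s t) ∨ Out par0 m v (Mm yb yt s t) := by
  induction k using Nat.strong_induction_on with
  | _ k ih =>
    intro m v C hm hk hC
    by_cases hmax : IsMax n A (m, v)
    · rcases hP.dich ⟨(m, v), hmax⟩ with h | h
      · left
        intro p q hp hq
        rw [ds_comm, ds_le_iff] at hp
        rw [ds_comm, ds_le_iff] at hq
        have h1 := h p.1 p.2 q.2 hp.1 hp.2 hq.2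
        have h2 := abs_le.1 hq.1
        have h3 := abs_le.1 hq.2
        unfold Mm
        omega
      · right
        intro p q hp hq
        rw [ds_comm, ds_le_iff] at hp
        rw [ds_comm, ds_le_iff] at hq
        exact h p.1 p.2 q.1 q.2 hp.1 hp.2 hq.1 hq.2
    · have h1 : ∃ m' v' C', m < m' ∧ m' < n ∧ A m' v' = some C' ∧ C'.Mem (v - v') := by
        by_contra h1
        push Not at h1
        exact hmax ⟨hm, ⟨C, hC⟩, fun m' v' C' a b c => h1 m' v' C' a b c⟩
      obtain ⟨m', v', C', a, b, c, e⟩ := h1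
      have h0 : ds v v ≤ par0.A m + 4 := by
        rw [ds_self]
        have h2 := par0.hA m
        have h3 := par0.hR m
        omega
      have hins := (hN.lb m m' v v' C C' a b hC c).resolve_right fun h => h v v h0 (by rw [ds_self]; norm_num) e
      have key : ∀ p q, ds v p ≤ par0.A m + 4 → ds p q ≤ 4 → ds v' q ≤ par0.A m' + 4 := by
        intro p q hp hq
        have h2 := ds_rad hN b c (hins p q hp hq)
        have h3 := par0.hA m'
        omega
      rcases ih (n - m') (by omega) m' v' C' b rfl c with h | h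
      · left
        intro p q hp hq
        exact h q q (key p q hp hq) (by rw [ds_self]; norm_num)
      · right
        intro p q hp hq
        exact h q q (key p q hp hq) (by rw [ds_self]; norm_num)

theorem ext0 : Ext par0 := by
  intro n A hN _
  obtain ⟨yt, yb, s, t, G, G', hP⟩ := exists_piece' (inp0 hN) 0
  have io : ∀ m v C, m < n → A m v = some C →
      Ins par0 m v (Mm yb yt s t) ∨ Out par0 m v (Mm yb yt s t) := fun m v C hm hC =>
    io0 hN hP _ m v C hm rfl hC
  have hS : Shp yb yt s t := by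
    have hh0 : ∀ y, yb ≤ y → y ≤ yt → 0 ≤ hh yt yb y := by
      intro y h1 h2
      unfold hh
      omega
    refine ⟨hP.mod, hP.slip, hP.tlip, fun y h1 h2 => ?_, fun y h1 h2 => ?_, hP.st, hP.sb, hP.tt, hP.tb⟩
    · have a1 := hP.sup y
      have a2 := hh0 y h1 h2
      have a3 : (0 : ℤ × ℤ).1 = 0 := rfl
      omega
    · have a1 := hP.tup y
      have a2 := hh0 y h1 h2
      have a3 : (0 : ℤ × ℤ).1 = 0 := rfl
      omega
  have hF : Fun yb yt s t G G' := ⟨hP.glip, hP.glip', hP.gs, hP.gt, hP.gs', hP.gt'⟩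
  have hLn := ll_ge n
  have e1 : (0 : ℤ × ℤ).1 = 0 := rfl
  have e2 : (0 : ℤ × ℤ).2 = 0 := rfl
  have b1 := hP.yt1
  have b2 := hP.yt2
  have b3 := hP.yb1
  have b4 := hP.yb2
  -- the new piece
  set lb := newl n A yb yt s t G G' with hlb
  -- a covered cell next to the complement
  have hnc : ∀ p, Mm yb yt s t p → (∃ q, ds p q ≤ 1 ∧ ¬ Mm yb yt s t q) → ¬ Cov n A p := by
    rintro p hp ⟨q, hq, hq'⟩ ⟨m, v, C, hm, hC, hpC⟩
    have h1 := ds_rad hN hm hC hpC
    have h2 := par0.hA m
    rcases io m v C hm hC with h | h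
    · exact hq' (h p q (by omega) (by omega))
    · exact h p p (by omega) (by rw [ds_self]; norm_num) hp
  refine ⟨⟨Mm yb yt s t, lb⟩, ⟨?_, ?_⟩, ?_, ?_, io, ?_⟩
  · -- inn
    intro p hp hq
    dsimp only
    rw [hlb, newl_own (hnc p hp hq)]
    unfold ownl
    dsimp only
    rw [if_pos hq]
  · -- val
    intro v
    set B : Blob := ⟨Mm yb yt s t, lb⟩ with hB
    have hout : ∀ p, ¬ Mm yb yt s t p → B.ext p = outl p := by
      intro p hp
      unfold Blob.ext
      rw [if_neg hp]
    have hinn : ∀ p, Mm yb yt s t p → B.ext p = lb p := by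
      intro p hp
      unfold Blob.ext
      rw [if_pos hp]
    by_cases hcase : ∃ p0, ds v p0 ≤ 3 ∧ Mm yb yt s t p0 ∧ Cov n A p0
    · -- near a smaller piece
      obtain ⟨p0, hp0, hp0m, hp0c⟩ := hcase
      set S : Set ℕ := {m | m < n ∧ ∃ w C p1, A m w = some C ∧ ds v p1 ≤ 3 ∧ C.Mem (p1 - w)} with hSd
      have hSf : S.Finite := (Set.finite_Iio n).subset fun m hm => hm.1
      have hSn : S.Nonempty := by
        obtain ⟨m, w, C, a, b, c⟩ := hp0c
        exact ⟨m, a, w, C, p0, b, hp0, c⟩
      obtain ⟨m, ⟨hm, w, C, p1, hC, hp1, hp1C⟩, hmax⟩ := Set.exists_max_image S id hSf hSn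
      have hR1 := ds_rad hN hm hC hp1C
      have hA := par0.hA m
      have hin : Ins par0 m w (Mm yb yt s t) := by
        refine (io m w C hm hC).resolve_right fun h => ?_
        have a1 := ds_tri w p1 p0
        have a2 := ds_tri p1 v p0
        rw [ds_comm p1 v] at a2
        exact h p0 p0 (by omega) (by rw [ds_self]; norm_num) hp0m
      have hallm : ∀ p, ds v p ≤ 3 → Mm yb yt s t p := by
        intro p hp
        have a1 := ds_tri w p1 p
        have a2 := ds_tri p1 v p
        rw [ds_comm p1 v] at a2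
        exact hin p p (by omega) (by rw [ds_self]; norm_num)
      have hcov : ∀ p, ds v p ≤ 3 → Cov n A p → C.Mem (p - w) := by
        rintro p hp ⟨m', w', C', hm', hC', hpC'⟩
        have a0 := ds_rad hN hm' hC' hpC'
        have a3 := ds_tri p v p1
        rw [ds_comm p v] at a3
        have hle : m' ≤ m := hmax m' ⟨hm', w', C', p, hC', hp, hpC'⟩
        rcases hle.lt_or_eq with h1 | h1
        · have a4 := par0.hA m'
          have a5 := ds_tri w' p p1
          rcases hN.lb m' m w' w C' C h1 hm hC' hC with h | h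
          · exact h p p (by omega) (by rw [ds_self]; norm_num)
          · exact absurd hp1C (h p1 p1 (by omega) (by rw [ds_self]; norm_num))
        · subst h1
          have hw : w = w' := by
            by_contra hw
            have a4 := hN.sep m' w w' C C' hm hC hC' hw
            have a5 := ds_tri w p1 w'
            have a6 := ds_tri p1 p w'
            rw [ds_comm p1 p, ds_comm p w'] at a6
            have a7 := par0.hK m'
            omega
          subst hw
          rw [hC] at hC'
          rw [Option.some.inj hC']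
          exact hpC'
      have hmaxj : IsMax n A (m, w) := by
        refine ⟨hm, ⟨C, hC⟩, fun m' w' C' h1 h2 h3 h4 => ?_⟩
        dsimp only at h1 h4
        have h0 : ds w w ≤ par0.A m + 4 := by
          rw [ds_self]
          have := par0.hR m
          omega
        rcases hN.lb m m' w w' C C' h1 h2 hC h3 with h | h
        · have h5 := h p1 p1 (by omega) (by rw [ds_self]; norm_num)
          have h6 : m' ≤ m := hmax m' ⟨h2, w', C', p1, h3, hp1, h5⟩
          omega
        · exact h w w h0 (by rw [ds_self]; norm_num) h4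
      have hok := (hN.ok m w C hm hC).1
      have hown : ∀ p, ds v p ≤ 2 → ¬ C.Mem (p - w) → B.ext p = ownl n A yb yt s t G G' p := by
        intro p hp hpM
        rw [hinn p (hallm p (by omega)), hlb, newl_own fun h => hpM (hcov p (by omega) h)]
      have hnoI : ∀ p, ds v p ≤ 2 → ¬ ∃ q, ds p q ≤ 1 ∧ ¬ Mm yb yt s t q := by
        rintro p hp ⟨q, hq, hq'⟩
        have a1 := ds_tri v p q
        exact hq' (hallm q (by omega))
      refine rule_b (FC := fun p => C.ext (p - w)) (M := fun p => C.Mem (p - w)) (G := G) (G' := G')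
        ⟨fun u => rule_shift (hok.val _), ?_, ?_, ?_, ?_, ?_, ?_, ?_, ?_, ?_, hP.glip, hP.glip'⟩
      · intro p hp hpM
        rw [hinn p (hallm p (by omega)), hlb, newl_cov hN hm hC hpM]
        unfold Blob.ext
        rw [if_pos hpM]
      · rintro p hpM ⟨q, hq, hq'⟩
        have := hok.inn (p - w) hpM ⟨q - w, by rw [ds_sub]; exact hq, hq'⟩
        unfold Blob.ext
        rw [if_pos hpM]
        exact this
      · intro p hpM
        unfold Blob.ext
        rw [if_neg hpM]
        rfl
      · rintro p hp hpM ⟨q, hq, hq'⟩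
        rw [hown p hp hpM]
        unfold ownl
        dsimp only
        rw [if_neg (hnoI p hp), if_pos ⟨q, hq, m, w, C, hm, hC, hq'⟩]
      · intro p hp hpM
        rw [hown p hp hpM]
        unfold ownl
        dsimp only
        rw [if_neg (hnoI p hp)]
        split_ifs <;> decide
      · intro p hp hpM
        rw [hown p hp hpM]
        rfl
      · intro p hp hpM
        rw [hown p hp hpM]
        rfl
      · intro p hp hpM
        rw [hown p hp hpM]
        rfl
      · rintro p q hp hq hpM hqM ⟨r, hr, hr'⟩ ⟨r2, hr2, hr2'⟩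
        have k1 : p ∈ Qz A (m, w) := ⟨C, hC, r, by omega, hr'⟩
        have k2 : q ∈ Qz A (m, w) := ⟨C, hC, r2, by omega, hr2'⟩
        exact ⟨hP.gcst ⟨(m, w), hmaxj⟩ p k1 q k2, hP.gcst' ⟨(m, w), hmaxj⟩ p k1 q k2⟩
    · push Not at hcase
      have hown : ∀ p, ds v p ≤ 2 → Mm yb yt s t p → B.ext p = ownl n A yb yt s t G G' p := by
        intro p hp hpM
        rw [hinn p hpM, hlb, newl_own (hcase p (by omega) hpM)]
      refine rule_a hS hF ⟨hout, ?_, ?_, ?_, ?_, ?_, ?_, ?_⟩
      · intro p hp hpM hq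
        rw [hown p hp hpM]
        unfold ownl
        dsimp only
        rw [if_pos hq]
      · intro p hp hpM
        rw [hown p hp hpM]
        unfold ownl
        dsimp only
        by_cases h1 : ∃ q, ds p q ≤ 1 ∧ ¬ Mm yb yt s t q
        · rw [if_pos h1]
          decide
        · rw [if_neg h1, if_neg]
          · decide
          · rintro ⟨q, hq, hq'⟩
            push Not at h1
            have a1 := ds_tri v p q
            exact hcase q (by omega) (h1 q hq) hq'
      · intro p hp hpM
        rw [hown p hp hpM]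
        rfl
      · intro p hp hpM
        rw [hown p hp hpM]
        rfl
      · intro p hp hpM
        rw [hown p hp hpM]
        rfl
      · intro p hp hpM
        rw [hown p hp hpM]
        rfl
      · intro p hp hpM
        rw [hown p hp hpM]
        rfl
  · -- rad
    rintro p hp
    dsimp only at hp
    unfold Mm at hp
    have h1 := hP.slow p.2 hp.1 hp.2.1
    have h2 := hP.tlow p.2 hp.1 hp.2.1
    have h3 := rr_ll n
    have e : par0.R n = (Rr n : ℤ) - 4 := rfl
    rw [ds_lt, e]
    omega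
  · -- core
    intro p hp
    rw [ds_lt] at hp
    dsimp only
    unfold Mm
    have h1 := hP.sup p.2
    have h2 := hP.tup p.2
    have h3 : 20 ≤ hh yt yb p.2 := by
      unfold hh
      omega
    omega
  · -- sub
    intro m v C hm hC p hp _
    dsimp only
    rw [hlb, newl_cov hN hm hC hp]

end SF
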