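import Pool.Agent.Helper13.SF.Blob
import Pool.Agent.Helper27.EB.Col

/-!
# SFB-3: the centres

For every Borel action (no continuity) on a standard Borel space with a second countable Baire topology:
colourings `c n` of `EB.window_col` for the window `K n`, `Z n = {x | c n x = z n}`.
Enumerate the pairs (nonempty basic open set `U`, `g`) by `n` (a surjection from `ℕ`); the sets `{x | c n (T g x) = z}`, `z : ℕ`, cover `U` and `U` is
not meagre (Baire), so choose `z n` such that `{x ∈ U | c n (T g x) = z n}` is not meagre.  For fixed `g` the Borel set `E = {x | ∃ n, T g x ∈ Z n}` is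
not meagre in any nonempty basic open set; by `MeasurableSet.residualEq_isOpen` it is equal to an open set mod meagre, which is dense: `E` is comeagre.
Countable intersection over `g`.
-/

set_option autoImplicit false

namespace SF

open EB Topology Filter

theorem exists_centres {d : ℕ} {X : Type} [TopologicalSpace X] [SecondCountableTopology X]
    [BaireSpace X] [MeasurableSpace X] [BorelSpace X] [StandardBorelSpace X]
    (a : FreeAct d X) (K : ℕ → ℕ) :
    ∃ Z : ℕ → Set X, (∀ n, MeasurableSet (Z n)) ∧
      (∀ n x g, x ∈ Z n → a.T g x ∈ Z n → nb (K n) g → g = 0) ∧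
      {x | ∀ g, ∃ n, a.T g x ∈ Z n} ∈ residual X := by
  classical
  choose c hc hcol using fun n => window_col a (K n)
  rcases isEmpty_or_nonempty X with hX | hX
  · refine ⟨fun _ => ∅, fun _ => MeasurableSet.empty, fun n x => (hX.false x).elim, ?_⟩
    exact Filter.mem_of_superset Filter.univ_mem fun x _ => (hX.false x).elim
  · set B := TopologicalSpace.countableBasis X with hB
    have hBc : B.Countable := TopologicalSpace.countable_countableBasis X
    have hBb := TopologicalSpace.isBasis_countableBasis X
    have : Countable B := hBc.to_subtype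
    have hne : Nonempty B := by
      obtain ⟨x⟩ := hX
      obtain ⟨U, hU, -, -⟩ := hBb.exists_subset_of_mem_open (Set.mem_univ x) isOpen_univ
      exact ⟨⟨U, hU⟩⟩
    obtain ⟨e, he⟩ := exists_surjective_nat (B × Gd d)
    have hz : ∀ n, ∃ z : ℕ,
        ¬ IsMeagre ((e n).1.1 ∩ {x | c n (a.T (e n).2 x) = z}) := by
      intro n
      by_contra hcon
      push Not at hcon
      have h1 : IsMeagre (⋃ z : ℕ, ((e n).1.1 ∩ {x | c n (a.T (e n).2 x) = z})) :=
        isMeagre_iUnion hcon
      have h2 : ¬ IsMeagre ((e n).1.1) :=
        not_isMeagre_of_isOpen (hBb.isOpen (e n).1.2)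
          (TopologicalSpace.nonempty_of_mem_countableBasis (e n).1.2)
      apply h2
      refine h1.mono ?_
      intro x hx
      exact Set.mem_iUnion.2 ⟨c n (a.T (e n).2 x), hx, rfl⟩
    choose z hz using hz
    refine ⟨fun n => {x | c n x = z n}, fun n => hc n (z n), ?_, ?_⟩
    · intro n x g hx hgx hnb
      by_contra hg
      exact hcol n x g hnb hg (hgx.trans hx.symm)
    · have hE : ∀ g : Gd d, {x | ∃ n, c n (a.T g x) = z n} ∈ residual X := by
        intro g
        have hm : MeasurableSet {x | ∃ n, c n (a.T g x) = z n} := by
          have h : {x | ∃ n, c n (a.T g x) = z n} = ⋃ n, {x | c n (a.T g x) = z n} := by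
            ext x
            simp
          rw [h]
          exact MeasurableSet.iUnion fun n => a.meas g (hc n (z n))
        obtain ⟨V, hV, hEV⟩ := hm.residualEq_isOpen
        have hd : Dense V := by
          rw [hBb.dense_iff]
          intro U hU hUne
          by_contra hcon
          rw [Set.not_nonempty_iff_eq_empty] at hcon
          obtain ⟨n, hn⟩ := he (⟨U, hU⟩, g)
          apply hz n
          have h1 : ∀ᶠ x in residual X, x ∉ ((e n).1.1 ∩ {x | c n (a.T (e n).2 x) = z n}) := by
            filter_upwards [hEV] with x hx
            rintro ⟨hxU, hxz⟩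
            rw [hn] at hxU hxz
            have h2 : x ∈ V := by
              have h3 : x ∈ {x | ∃ n, c n (a.T g x) = z n} := ⟨n, hxz⟩
              exact hx.mp h3
            have h4 : x ∈ U ∩ V := ⟨hxU, h2⟩
            rw [hcon] at h4
            exact h4
          exact h1
        have hVr : V ∈ residual X := residual_of_dense_open hV hd
        filter_upwards [hEV, hVr] with x hx hxV
        exact hx.mpr hxV
      have h3 : {x | ∀ g, ∃ n, a.T g x ∈ {x | c n x = z n}}
          = ⋂ g, {x | ∃ n, c n (a.T g x) = z n} := by
        ext x
        simp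
      rw [h3]
      exact countable_iInter_mem.2 hE

end SF
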