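import Pool.Agent.Helper13.SF.Ext
import Pool.Agent.Helper13.SF.Cm
import Pool.Agent.Helper13.SF.Resid
import Pool.Agent.Helper27.EB.LCLDefs

/-!
# SF, Baire side: the configuration on the planes of a free Borel action on a Polish space
-/

set_option autoImplicit false

namespace SF

open EB

/-- the cell `u` of the `(i, j)`-plane -/
def pl {d : ℕ} (i j : Fin d) (u : ℤ × ℤ) : Gd d := u.1 • Pi.single i 1 + u.2 • Pi.single j 1

theorem pl_add {d : ℕ} (i j : Fin d) (u v : ℤ × ℤ) : pl i j (u + v) = pl i j u + pl i j v := by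
  unfold pl
  simp only [Prod.fst_add, Prod.snd_add, add_smul]
  abel

theorem pl_zero {d : ℕ} (i j : Fin d) : pl i j 0 = 0 := by
  unfold pl
  simp

theorem pl_fst {d : ℕ} {i j : Fin d} (h : i ≠ j) (u : ℤ × ℤ) : pl i j u i = u.1 := by
  unfold pl
  simp [Pi.single_eq_of_ne h]

theorem pl_snd {d : ℕ} {i j : Fin d} (h : i ≠ j) (u : ℤ × ℤ) : pl i j u j = u.2 := by
  unfold pl
  simp [Pi.single_eq_of_ne h.symm]

theorem pl_else {d : ℕ} {i j k : Fin d} (h : k ≠ i) (h' : k ≠ j) (u : ℤ × ℤ) : pl i j u k = 0 := by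
  unfold pl
  simp [Pi.single_eq_of_ne h, Pi.single_eq_of_ne h']

theorem pl_nb {d : ℕ} {i j : Fin d} (h : i ≠ j) (u v : ℤ × ℤ) (K : ℕ) (hK : ds u v ≤ K) :
    nb K (pl i j (v - u)) := by
  rw [ds_le_iff, abs_sub_comm u.1, abs_sub_comm u.2] at hK
  intro k
  by_cases h1 : k = i
  · subst h1
    rw [pl_fst h]
    exact hK.1
  · by_cases h2 : k = j
    · subst h2
      rw [pl_snd h]
      exact hK.2
    · rw [pl_else h1 h2]
      simp

theorem pl_inj {d : ℕ} {i j : Fin d} (h : i ≠ j) {u : ℤ × ℤ} (hu : pl i j u = 0) : u = 0 := by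
  have h1 := pl_fst h u
  have h2 := pl_snd h u
  rw [hu] at h1 h2
  exact Prod.ext h1.symm h2.symm

/-- the action of the plane -/
def plAct {d : ℕ} {X : Type} [MeasurableSpace X] (a : FreeAct d X) (i j : Fin d) : Act X where
  T u x := a.T (pl i j u) x
  zero x := by rw [pl_zero, a.zero]
  add u v x := by rw [pl_add, a.add]

section
variable (P : Par) {X : Type} (a : Act X) (Z : ℕ → Set X)

/-- the label `c` is given to `x` by some piece -/
def HasL (x : X) (c : Lab) : Prop :=
  ∃ n v C, beta P a Z n (a.T v x) = some C ∧ C.Mem (-v) ∧ C.lab (-v) = c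

open Classical in
/-- the configuration -/
noncomputable def conf (x : X) : Lab := if h : ∃ c, HasL P a Z x c then h.choose else outl 0

variable {P a Z}

theorem hasL_unique (hE : Ext P) (hZ : Sepd P a Z) {x : X} {c c' : Lab} (h : HasL P a Z x c)
    (h' : HasL P a Z x c') : c = c' := by
  obtain ⟨n, v, C, h1, h2, rfl⟩ := h
  obtain ⟨n', v', C', h1', h2', rfl⟩ := h'
  exact lab_unique P hE a Z hZ x n n' v v' C C' h1 h1' h2 h2'

theorem conf_eq (hE : Ext P) (hZ : Sepd P a Z) {x : X} {c : Lab} (h : HasL P a Z x c) :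
    conf P a Z x = c := by
  have h0 : ∃ c, HasL P a Z x c := ⟨c, h⟩
  unfold conf
  rw [dif_pos h0]
  exact hasL_unique hE hZ h0.choose_spec h

variable [MeasurableSpace X]

theorem hasL_meas (hT : ∀ v, Measurable (a.T v)) (hZm : ∀ n, MeasurableSet (Z n)) (c : Lab) :
    MeasurableSet {x | HasL P a Z x c} := by
  have e : {x | HasL P a Z x c} = ⋃ (n : ℕ) (v : ℤ × ℤ), {x | beta P a Z n (a.T v x) ∈
      {o : Option Blob | ∃ C, o = some C ∧ C.Mem (-v) ∧ C.lab (-v) = c}} := by
    ext x
    simp only [HasL, Set.mem_ofPred_eq, Set.mem_iUnion]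
  rw [e]
  refine MeasurableSet.iUnion fun n => MeasurableSet.iUnion fun v => ?_
  exact ((beta_cm P a hT Z hZm n).precomp (hT v)).set _

instance : Finite Lab := by
  have h : Function.Injective (fun c : Lab => (c.tau, c.b, c.g, c.g', c.ph, c.ck)) := by
    rintro ⟨_, _, _, _, _, _⟩ ⟨_, _, _, _, _, _⟩ h
    simp only [Prod.mk.injEq] at h
    obtain ⟨rfl, rfl, rfl, rfl, rfl, rfl⟩ := h
    rfl
  exact Finite.of_injective _ h

theorem conf_ms (hE : Ext P) (hZ : Sepd P a Z) (hT : ∀ v, Measurable (a.T v))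
    (hZm : ∀ n, MeasurableSet (Z n)) : Ms (conf P a Z) := by
  intro c
  have h0 : MeasurableSet {x | ∃ c, HasL P a Z x c} := by
    have e : {x | ∃ c, HasL P a Z x c} = ⋃ c : Lab, {x | HasL P a Z x c} := by
      ext x
      simp
    rw [e]
    have : Countable Lab := Finite.to_countable
    exact MeasurableSet.iUnion fun c => hasL_meas hT hZm c
  have e : {x | conf P a Z x = c} =
      {x | HasL P a Z x c} ∪ ({x | ∃ c, HasL P a Z x c}ᶜ ∩ {_x | outl 0 = c}) := by
    ext x
    simp only [Set.mem_ofPred_eq, Set.mem_union, Set.mem_inter_iff, Set.mem_compl_iff]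
    constructor
    · intro h
      by_cases h1 : ∃ c, HasL P a Z x c
      · left
        obtain ⟨c', h2⟩ := h1
        rw [conf_eq hE hZ h2] at h
        rwa [← h]
      · right
        refine ⟨h1, ?_⟩
        unfold conf at h
        rwa [dif_neg h1] at h
    · rintro (h | ⟨h1, h2⟩)
      · exact conf_eq hE hZ h
      · unfold conf
        rwa [dif_neg h1]
  rw [e]
  exact (hasL_meas hT hZm c).union (h0.compl.inter (MeasurableSet.const _))

end

/-- the rule at the centre of a piece -/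
theorem rule_centre {P : Par} {X : Type} {a : Act X} {Z : ℕ → Set X} (hE : Ext P) (hZ : Sepd P a Z)
    (x : X) (v : ℤ × ℤ) (n : ℕ) (hn : a.T v x ∈ Z n) : Rule (fun u => conf P a Z (a.T u x)) v := by
  obtain ⟨B, hB⟩ := beta_some P hE a Z hZ n _ hn
  have hg := good_beta P hE a Z hZ n _ B hB
  have h1 : Rule (fun q => B.ext (q - v)) v := rule_shift (hg.ok.val _)
  refine rule_congr (fun u hu => ?_) h1
  have hm : B.Mem (u - v) := by
    refine hg.core _ ?_
    have := ds_sub v u v
    rw [sub_self] at this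
    rw [this]
    exact hu
  have h2 : HasL P a Z (a.T u x) (B.lab (u - v)) := by
    refine ⟨n, v - u, B, ?_, ?_, ?_⟩
    · rw [← a.add, sub_add_cancel]
      exact hB
    · rw [neg_sub]
      exact hm
    · rw [neg_sub]
  rw [conf_eq hE hZ h2]
  unfold Blob.ext
  rw [if_pos hm]

/-- For every free Borel action of `ℤ^d` on a Polish space there is a Borel configuration which satisfies the rule in all `(i, j)`-planes on an
invariant comeagre Borel set. -/
theorem baire_plane {d : ℕ} {X : Type} [TopologicalSpace X] [SecondCountableTopology X] [BaireSpace X]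
    [MeasurableSpace X] [BorelSpace X] [StandardBorelSpace X] (a : FreeAct d X) {i j : Fin d} (hij : i ≠ j) :
    ∃ C : Set X, MeasurableSet C ∧ Inv a C ∧ C ∈ residual X ∧ ∃ f : X → Lab, Ms f ∧
      ∀ x ∈ C, ∀ v : ℤ × ℤ, Rule (fun u => f (a.T (pl i j u) x)) v := by
  obtain ⟨Z, hZm, hZs, hZr⟩ := exists_centres a SFg.Kk
  have hsep : Sepd par0 (plAct a i j) Z := by
    intro n x v v' h1 h2 h3
    by_contra h4
    push Not at h4
    have h5 := hZs n (a.T (pl i j v) x) (pl i j (v' - v)) h1 (by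
      rw [← a.add, ← pl_add, sub_add_cancel]
      exact h2) (pl_nb hij v v' _ h4.le)
    exact h3 (sub_eq_zero.1 (pl_inj hij h5)).symm
  have hT : ∀ v, Measurable ((plAct a i j).T v) := fun v => a.meas _
  refine ⟨{x | ∀ g, ∃ n, a.T g x ∈ Z n}, ?_, ?_, hZr, conf par0 (plAct a i j) Z,
    conf_ms ext0 hsep hT hZm, ?_⟩
  · have e : {x | ∀ g, ∃ n, a.T g x ∈ Z n} = ⋂ g : Gd d, ⋃ n : ℕ, a.T g ⁻¹' Z n := by
      ext x
      simp
    rw [e]
    exact MeasurableSet.iInter fun g => MeasurableSet.iUnion fun n => a.meas g (hZm n)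
  · intro g x hx h
    obtain ⟨n, hn⟩ := hx (h + g)
    rw [a.add] at hn
    exact ⟨n, hn⟩
  · intro x hx v
    obtain ⟨n, hn⟩ := hx (pl i j v)
    exact rule_centre ext0 hsep x v n hn

end SF
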