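import Mathlib

/-!
# Project SF (MP_eb515b_lc): the labels and the local rule on `ℤ × ℤ`

Proposal of the rule text.  Cell `v = (x, y)`; `v + (1, 0)` is to the right, `v + (0, 1)` is above.  Height: `+1` from `I` to `O`.
-/

set_option autoImplicit false

namespace SF

/-- side of a wall: none, inner side, outer side -/
inductive Tau | z | I | O
  deriving DecidableEq, Fintype

/-- the labels -/
structure Lab where
  tau : Tau
  b : Bool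
  g : ZMod 3
  g' : ZMod 3
  ph : Bool
  ck : ZMod 64
  deriving DecidableEq

/-- the increment `-1, 0, 1` -/
def dl (k : ZMod 3) : ℤ := if k = 0 then 0 else if k = 1 then 1 else -1

/-- the four cells of the block of `v` -/
def InB (v p : ℤ × ℤ) : Prop := (p.1 = v.1 ∨ p.1 = v.1 + 1) ∧ (p.2 = v.2 ∨ p.2 = v.2 + 1)

variable (F : ℤ × ℤ → Lab)

/-- the block contains `I` and `O` -/
def Mixed (v : ℤ × ℤ) : Prop := (∃ p, InB v p ∧ (F p).tau = Tau.I) ∧ ∃ p, InB v p ∧ (F p).tau = Tau.O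

/-- `u`, `v` is an `I`-`O` pair in some order -/
def IO (u v : ℤ × ℤ) : Prop :=
  ((F u).tau = Tau.I ∧ (F v).tau = Tau.O) ∨ ((F u).tau = Tau.O ∧ (F v).tau = Tau.I)

/-- `v` is on a left wall -/
def LW (v : ℤ × ℤ) : Prop := (F v).tau = Tau.I ∧ (F (v.1 - 1, v.2)).tau = Tau.O

/-- `v` is on a right wall -/
def RW (v : ℤ × ℤ) : Prop := (F v).tau = Tau.I ∧ (F (v.1 + 1, v.2)).tau = Tau.O

/-- the prescribed increment at a wall cell, going down -/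
def inc (c : Lab) : ℤ := if c.ck = 0 then (if c.ph then -1 else 1) else 0

/-- integer increment of `h` along `u, c, v` -/
def dl2 (h : Lab → ZMod 3) (u c v : ℤ × ℤ) : ℤ := dl (h (F c) - h (F u)) + dl (h (F v) - h (F c))

/-- clock and phase, from `u` down to `v` -/
def Tick (u v : ℤ × ℤ) : Prop := (F v).ck = (F u).ck + 1 ∧ ((F u).ph = true → (F v).ph = true)

/-- The local rule at `v` (it looks at the cells at sup-distance `≤ 1` and at `v + (2, 0)`, `v + (2, 1)` only through walls). -/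
structure Rule (v : ℤ × ℤ) : Prop where
  r1 : Mixed F v → ∀ p, InB v p → (F p).tau ≠ Tau.z
  r1c : ¬ ((F v).tau = Tau.I ∧ (F (v.1 + 1, v.2 + 1)).tau = Tau.I ∧ (F (v.1 + 1, v.2)).tau = Tau.O ∧
      (F (v.1, v.2 + 1)).tau = Tau.O) ∧
    ¬ ((F v).tau = Tau.O ∧ (F (v.1 + 1, v.2 + 1)).tau = Tau.O ∧ (F (v.1 + 1, v.2)).tau = Tau.I ∧
      (F (v.1, v.2 + 1)).tau = Tau.I)
  r2 : (F v).tau = Tau.I → ((F (v.1, v.2 + 1)).tau = Tau.O ∨ (F (v.1, v.2 - 1)).tau = Tau.O) →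
    (F (v.1 + 1, v.2)).tau = Tau.O ∨ (F (v.1 - 1, v.2)).tau = Tau.O
  r3 : ¬ Mixed F v → ∀ h ∈ [Lab.g, Lab.g'],
    dl2 F h v (v.1 + 1, v.2) (v.1 + 1, v.2 + 1) = dl2 F h v (v.1, v.2 + 1) (v.1 + 1, v.2 + 1)
  r4 : ∀ u ∈ [(v.1 + 1, v.2), (v.1, v.2 + 1)], ¬ IO F v u → (F v).b ≠ (F u).b
  r5 : Mixed F v → ∀ p q, InB v p → InB v q → (F p).tau = Tau.O → (F q).tau = Tau.O →
    (F p).g = (F q).g ∧ (F p).g' = (F q).g'
  r6 : (∃ p, InB v p ∧ RW F p) → Mixed F v → ∀ p q, InB v p → InB v q → (F p).tau = Tau.I →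
    (F q).tau = Tau.I → (F p).g = (F q).g
  r6' : (∃ p, InB v p ∧ LW F p) → Mixed F v → ∀ p q, InB v p → InB v q → (F p).tau = Tau.I →
    (F q).tau = Tau.I → (F p).g' = (F q).g'
  r7 : LW F v →
    (LW F (v.1, v.2 + 1) → Tick F (v.1, v.2 + 1) v ∧ dl ((F v).g - (F (v.1, v.2 + 1)).g) = inc (F v)) ∧
    (LW F (v.1 + 1, v.2 + 1) → Tick F (v.1 + 1, v.2 + 1) v ∧
      dl2 F Lab.g (v.1 + 1, v.2 + 1) (v.1 + 1, v.2) v = inc (F v)) ∧
    (LW F (v.1 - 1, v.2 + 1) → Tick F (v.1 - 1, v.2 + 1) v ∧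
      dl2 F Lab.g (v.1 - 1, v.2 + 1) (v.1, v.2 + 1) v = inc (F v))
  r7' : RW F v →
    (RW F (v.1, v.2 + 1) → Tick F (v.1, v.2 + 1) v ∧ dl ((F v).g' - (F (v.1, v.2 + 1)).g') = inc (F v)) ∧
    (RW F (v.1 - 1, v.2 + 1) → Tick F (v.1 - 1, v.2 + 1) v ∧
      dl2 F Lab.g' (v.1 - 1, v.2 + 1) (v.1 - 1, v.2) v = inc (F v)) ∧
    (RW F (v.1 + 1, v.2 + 1) → Tick F (v.1 + 1, v.2 + 1) v ∧
      dl2 F Lab.g' (v.1 + 1, v.2 + 1) (v.1, v.2 + 1) v = inc (F v))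

end SF
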