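import Pool.Agent.Helper13.SF.Blob

/-!
# SF, Baire side: the rule near the wall of the new piece
-/

set_option autoImplicit false

namespace SF

/-- parity -/
def pr (p : ℤ × ℤ) : Bool := decide ((p.1 + p.2) % 2 = 0)

theorem pr_right (x y : ℤ) : pr (x, y) ≠ pr (x + 1, y) := by
  unfold pr
  simp only [ne_eq, decide_eq_decide]
  omega

theorem pr_up (x y : ℤ) : pr (x, y) ≠ pr (x, y + 1) := by
  unfold pr
  simp only [ne_eq, decide_eq_decide]
  omega

theorem outl_b (p : ℤ × ℤ) : (outl p).b = pr p := rfl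

theorem dl_cast {a b : ℤ} (h : |a - b| ≤ 1) : dl ((a : ZMod 3) - (b : ZMod 3)) = a - b := by
  have h1 := abs_le.1 h
  have h2 : ((a : ZMod 3) - (b : ZMod 3)) = ((a - b : ℤ) : ZMod 3) := by push_cast; ring
  rw [h2]
  have h3 : a - b = -1 ∨ a - b = 0 ∨ a - b = 1 := by omega
  rcases h3 with h3 | h3 | h3 <;> rw [h3] <;> decide

theorem dl_cast' {a b : ℤ} (h1 : a ≤ b + 1) (h2 : b ≤ a + 1) :
    dl ((a : ZMod 3) - (b : ZMod 3)) = a - b := by
  refine dl_cast ?_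
  rw [abs_le]
  omega

/-- the shape of a piece with centre `0` -/
structure Shp (yb yt : ℤ) (s t : ℤ → ℤ) : Prop where
  mod : (128 : ℤ) ∣ yt - yb - 63
  sl : ∀ y y', |s y - s y'| ≤ |y - y'|
  tl : ∀ y y', |t y - t y'| ≤ |y - y'|
  s0 : ∀ y, yb ≤ y → y ≤ yt → s y ≤ 0
  t0 : ∀ y, yb ≤ y → y ≤ yt → 0 ≤ t y
  st : s yt = 0
  sb : s yb = 0
  tt : t yt = 0
  tb : t yb = 0

/-- the cells of the piece -/
def Mm (yb yt : ℤ) (s t : ℤ → ℤ) (p : ℤ × ℤ) : Prop :=
  yb ≤ p.2 ∧ p.2 ≤ yt ∧ s p.2 ≤ p.1 ∧ p.1 ≤ t p.2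

/-- the height at the growing wall -/
def hm (yb yt y : ℤ) : ℤ := min (yt - y) (y - yb)

/-- the labels near `v`, where no smaller piece is near -/
structure NearA (F : ℤ × ℤ → Lab) (yb yt : ℤ) (s t : ℤ → ℤ) (G G' : ℤ × ℤ → ℤ) (v : ℤ × ℤ) : Prop where
  out : ∀ p, ¬ Mm yb yt s t p → F p = outl p
  I : ∀ p, ds v p ≤ 2 → Mm yb yt s t p → (∃ q, ds p q ≤ 1 ∧ ¬ Mm yb yt s t q) → (F p).tau = Tau.I
  O : ∀ p, ds v p ≤ 2 → Mm yb yt s t p → (F p).tau ≠ Tau.O
  b : ∀ p, ds v p ≤ 2 → Mm yb yt s t p → (F p).b = pr p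
  g : ∀ p, ds v p ≤ 2 → Mm yb yt s t p → (F p).g = ((G p : ℤ) : ZMod 3)
  g' : ∀ p, ds v p ≤ 2 → Mm yb yt s t p → (F p).g' = ((G' p : ℤ) : ZMod 3)
  ck : ∀ p, ds v p ≤ 2 → Mm yb yt s t p → (F p).ck = ((yt - p.2 : ℤ) : ZMod 64)
  ph : ∀ p, ds v p ≤ 2 → Mm yb yt s t p → (F p).ph = decide (p.2 - yb < yt - p.2)

/-- the properties of the two functions -/
structure Fun (yb yt : ℤ) (s t : ℤ → ℤ) (G G' : ℤ × ℤ → ℤ) : Prop where
  lip : ∀ p q : ℤ × ℤ, |p.1 - q.1| + |p.2 - q.2| ≤ 1 → G p ≤ G q + 1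
  lip' : ∀ p q : ℤ × ℤ, |p.1 - q.1| + |p.2 - q.2| ≤ 1 → G' p ≤ G' q + 1
  gs : ∀ x y, yb ≤ y → y ≤ yt → |x - s y| ≤ 2 → G (x, y) = hm yb yt y / 64
  gt : ∀ x y, yb ≤ y → y ≤ yt → |x - t y| ≤ 2 → G (x, y) = 0
  gs' : ∀ x y, yb ≤ y → y ≤ yt → |x - s y| ≤ 2 → G' (x, y) = 0
  gt' : ∀ x y, yb ≤ y → y ≤ yt → |x - t y| ≤ 2 → G' (x, y) = hm yb yt y / 64

theorem ds_le_iff (p q : ℤ × ℤ) (k : ℤ) : ds p q ≤ k ↔ |p.1 - q.1| ≤ k ∧ |p.2 - q.2| ≤ k := max_le_iff

theorem ds_lt (p q : ℤ × ℤ) (k : ℤ) : ds p q ≤ k ↔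
    (p.1 - q.1 ≤ k ∧ q.1 - p.1 ≤ k) ∧ (p.2 - q.2 ≤ k ∧ q.2 - p.2 ≤ k) := by
  rw [ds_le_iff, abs_le, abs_le]
  constructor <;> rintro ⟨⟨h1, h2⟩, h3, h4⟩ <;> refine ⟨⟨?_, ?_⟩, ?_, ?_⟩ <;> linarith

theorem inB_ds {v p : ℤ × ℤ} (h : InB v p) : ds v p ≤ 1 := by
  obtain ⟨h1, h2⟩ := h
  rw [ds_lt]
  omega

theorem inB_ds2 {v p q : ℤ × ℤ} (h : InB v p) (h' : InB v q) : ds p q ≤ 1 := by
  obtain ⟨h1, h2⟩ := h
  obtain ⟨h3, h4⟩ := h'
  rw [ds_lt]
  omega

variable {F : ℤ × ℤ → Lab} {yb yt : ℤ} {s t : ℤ → ℤ} {G G' : ℤ × ℤ → ℤ} {v : ℤ × ℤ}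

theorem NearA.tauO (h : NearA F yb yt s t G G' v) {p : ℤ × ℤ} (hp : ds v p ≤ 2) :
    (F p).tau = Tau.O ↔ ¬ Mm yb yt s t p := by
  constructor
  · intro h1 h2
    exact h.O p hp h2 h1
  · intro h1
    rw [h.out p h1]
    rfl

theorem NearA.tauI (h : NearA F yb yt s t G G' v) {p : ℤ × ℤ} (hp : (F p).tau = Tau.I) :
    Mm yb yt s t p := by
  by_contra h1
  rw [h.out p h1] at hp
  exact Tau.noConfusion hp

theorem lip1 {s : ℤ → ℤ} (h : ∀ y y', |s y - s y'| ≤ |y - y'|) (y : ℤ) :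
    s (y + 1) ≤ s y + 1 ∧ s y ≤ s (y + 1) + 1 := by
  have h1 := abs_le.1 (h (y + 1) y)
  rw [show y + 1 - y = 1 by ring, abs_one] at h1
  omega

/-- the wall of growth, one row -/
theorem step_up (hmod : (128 : ℤ) ∣ yt - yb - 63) {y : ℤ} (_h1 : yb ≤ y) (_h2 : y + 1 ≤ yt)
    {c : Lab} (hck : c.ck = ((yt - y : ℤ) : ZMod 64)) (hph : c.ph = decide (y - yb < yt - y)) :
    hm yb yt y / 64 - hm yb yt (y + 1) / 64 = inc c := by
  obtain ⟨k, hk⟩ := hmod
  have h3 : c.ck = 0 ↔ (64 : ℤ) ∣ yt - y := by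
    rw [hck]
    exact ZMod.intCast_zmod_eq_zero_iff_dvd _ _
  unfold inc hm
  rw [hph]
  by_cases h4 : (64 : ℤ) ∣ yt - y
  · rw [if_pos (h3.2 h4)]
    by_cases h5 : y - yb < yt - y
    · simp only [h5, decide_true, if_true]
      omega
    · simp only [h5, decide_false, Bool.false_eq_true, if_false]
      omega
  · rw [if_neg (fun h => h4 (h3.1 h))]
    omega

theorem abs_step {a b c : ℤ} (h : a - b = c) (hc : c = -1 ∨ c = 0 ∨ c = 1) : |a - b| ≤ 1 := by
  rw [abs_le]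
  omega

theorem inc_cases (c : Lab) : inc c = -1 ∨ inc c = 0 ∨ inc c = 1 := by
  unfold inc
  split_ifs <;> simp

theorem rule_a (hS : Shp yb yt s t) (hF : Fun yb yt s t G G') (h : NearA F yb yt s t G G' v) :
    Rule F v := by
  obtain ⟨vx, vy⟩ := v
  have hd : ∀ p : ℤ × ℤ, InB (vx, vy) p → ds (vx, vy) p ≤ 2 := fun p hp => (inB_ds hp).trans (by norm_num)
  have hin : ∀ p q, InB (vx, vy) p → InB (vx, vy) q → Mm yb yt s t p → ¬ Mm yb yt s t q →
      (F p).tau = Tau.I := fun p q hp hq h1 h2 => h.I p (hd p hp) h1 ⟨q, inB_ds2 hp hq, h2⟩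
  have b00 : InB (vx, vy) (vx, vy) := ⟨Or.inl rfl, Or.inl rfl⟩
  have b10 : InB (vx, vy) (vx + 1, vy) := ⟨Or.inr rfl, Or.inl rfl⟩
  have b01 : InB (vx, vy) (vx, vy + 1) := ⟨Or.inl rfl, Or.inr rfl⟩
  have b11 : InB (vx, vy) (vx + 1, vy + 1) := ⟨Or.inr rfl, Or.inr rfl⟩
  -- the set of cells of a block
  have hmix : ¬ Mixed F (vx, vy) → ∀ p q, InB (vx, vy) p → InB (vx, vy) q → Mm yb yt s t p →
      Mm yb yt s t q := by
    intro hm p q hp hq h1
    by_contra h2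
    exact hm ⟨⟨p, hp, hin p q hp hq h1 h2⟩, q, hq, (h.tauO (hd q hq)).2 h2⟩
  have hl := fun y => lip1 hS.sl y
  have hr := fun y => lip1 hS.tl y
  have hs1 := hl vy
  have hs2 := hl (vy - 1)
  rw [show vy - 1 + 1 = vy by ring] at hs2
  have ht1 := hr vy
  have ht2 := hr (vy - 1)
  rw [show vy - 1 + 1 = vy by ring] at ht2
  have hdd : ∀ x y, vx - 2 ≤ x → x ≤ vx + 2 → vy - 2 ≤ y → y ≤ vy + 2 → ds (vx, vy) (x, y) ≤ 2 := by
    intro x y h1 h2 h3 h4
    rw [ds_lt]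
    dsimp only
    omega
  refine ⟨?_, ⟨?_, ?_⟩, ?_, ?_, ?_, ?_, ?_, ?_, ?_, ?_⟩
  · -- r1
    rintro ⟨_, q, hq, hq'⟩ p hp
    have h2 := (h.tauO (hd q hq)).1 hq'
    by_cases h1 : Mm yb yt s t p
    · rw [hin p q hp hq h1 h2]
      decide
    · rw [(h.tauO (hd p hp)).2 h1]
      decide
  · -- r1c
    rintro ⟨h1, h2, h3, h4⟩
    have m1 := h.tauI h1
    have m2 := h.tauI h2
    have m3 := (h.tauO (hd _ b10)).1 h3
    have m4 := (h.tauO (hd _ b01)).1 h4
    unfold Mm at m1 m2 m3 m4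
    dsimp only at m1 m2 m3 m4
    have := hS.t0 vy m1.1 m1.2.1
    have := hS.s0 (vy + 1) m2.1 m2.2.1
    omega
  · rintro ⟨h1, h2, h3, h4⟩
    have m1 := (h.tauO (hd _ b00)).1 h1
    have m2 := (h.tauO (hd _ b11)).1 h2
    have m3 := h.tauI h3
    have m4 := h.tauI h4
    unfold Mm at m1 m2 m3 m4
    dsimp only at m1 m2 m3 m4
    have := hS.s0 vy m3.1 m3.2.1
    have := hS.t0 (vy + 1) m4.1 m4.2.1
    omega
  · -- r2
    intro h1 h2
    have m1 := h.tauI h1
    by_contra h3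
    push Not at h3
    have m3 : Mm yb yt s t (vx + 1, vy) := by
      by_contra h4
      exact h3.1 ((h.tauO (hd _ b10)).2 h4)
    have m4 : Mm yb yt s t (vx - 1, vy) := by
      by_contra h4
      exact h3.2 ((h.tauO (hdd _ _ (by omega) (by omega) (by omega) (by omega))).2 h4)
    have e1 := hS.st
    have e2 := hS.sb
    have e3 := hS.tt
    have e4 := hS.tb
    unfold Mm at m1 m3 m4
    dsimp only at m1 m3 m4
    rcases h2 with h2 | h2
    · have m2 := (h.tauO (hd _ b01)).1 h2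
      unfold Mm at m2
      dsimp only at m2
      by_cases h5 : vy = yt
      · subst h5
        omega
      · omega
    · have m2 := (h.tauO (hdd _ _ (by omega) (by omega) (by omega) (by omega))).1 h2
      unfold Mm at m2
      dsimp only at m2
      by_cases h5 : vy = yb
      · subst h5
        omega
      · omega
  · -- r3
    intro hm hh hhm
    by_cases h1 : Mm yb yt s t (vx, vy)
    · have m1 := hmix hm _ _ b00 b10 h1
      have m2 := hmix hm _ _ b00 b01 h1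
      have m3 := hmix hm _ _ b00 b11 h1
      have key : ∀ (H : ℤ × ℤ → ℤ) (hL : ∀ p q : ℤ × ℤ, |p.1 - q.1| + |p.2 - q.2| ≤ 1 → H p ≤ H q + 1)
          (f : Lab → ZMod 3) (hf : ∀ p, ds (vx, vy) p ≤ 2 → Mm yb yt s t p → f (F p) = ((H p : ℤ) : ZMod 3)),
          dl2 F f (vx, vy) (vx + 1, vy) (vx + 1, vy + 1) = dl2 F f (vx, vy) (vx, vy + 1) (vx + 1, vy + 1) := by
        intro H hL f hf
        unfold dl2
        rw [hf _ (hd _ b00) h1, hf _ (hd _ b10) m1, hf _ (hd _ b01) m2, hf _ (hd _ b11) m3]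
        have a1 : |(vx + 1, vy).1 - (vx, vy).1| + |(vx + 1, vy).2 - (vx, vy).2| ≤ 1 := by simp
        have a2 : |(vx, vy + 1).1 - (vx, vy).1| + |(vx, vy + 1).2 - (vx, vy).2| ≤ 1 := by simp
        have a3 : |(vx + 1, vy + 1).1 - (vx + 1, vy).1| + |(vx + 1, vy + 1).2 - (vx + 1, vy).2| ≤ 1 := by
          simp
        have a4 : |(vx + 1, vy + 1).1 - (vx, vy + 1).1| + |(vx + 1, vy + 1).2 - (vx, vy + 1).2| ≤ 1 := by
          simp
        have sy : ∀ p q : ℤ × ℤ, |p.1 - q.1| + |p.2 - q.2| ≤ 1 → H p ≤ H q + 1 ∧ H q ≤ H p + 1 := by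
          intro p q hpq
          refine ⟨hL p q hpq, hL q p ?_⟩
          rw [abs_sub_comm q.1, abs_sub_comm q.2]
          exact hpq
        rw [dl_cast' (sy _ _ a1).1 (sy _ _ a1).2, dl_cast' (sy _ _ a2).1 (sy _ _ a2).2,
          dl_cast' (sy _ _ a3).1 (sy _ _ a3).2, dl_cast' (sy _ _ a4).1 (sy _ _ a4).2]
        ring
      simp only [List.mem_cons, List.not_mem_nil, or_false] at hhm
      rcases hhm with rfl | rfl
      · exact key G hF.lip Lab.g h.g
      · exact key G' hF.lip' Lab.g' h.g'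
    · have m1 : ¬ Mm yb yt s t (vx + 1, vy) := fun h2 => h1 (hmix hm _ _ b10 b00 h2)
      have m2 : ¬ Mm yb yt s t (vx, vy + 1) := fun h2 => h1 (hmix hm _ _ b01 b00 h2)
      have m3 : ¬ Mm yb yt s t (vx + 1, vy + 1) := fun h2 => h1 (hmix hm _ _ b11 b00 h2)
      unfold dl2
      rw [h.out _ h1, h.out _ m1, h.out _ m2, h.out _ m3]
      simp only [List.mem_cons, List.not_mem_nil, or_false] at hhm
      rcases hhm with rfl | rfl <;> rfl
  · -- r4
    intro u hu hio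
    simp only [List.mem_cons, List.not_mem_nil, or_false] at hu
    have hu' : InB (vx, vy) u := by
      rcases hu with rfl | rfl
      · exact b10
      · exact b01
    have hpr : pr (vx, vy) ≠ pr u := by
      rcases hu with rfl | rfl
      · exact pr_right vx vy
      · exact pr_up vx vy
    have hbb : ∀ p, ds (vx, vy) p ≤ 2 → (F p).b = pr p := by
      intro p hp
      by_cases h1 : Mm yb yt s t p
      · exact h.b p hp h1
      · rw [h.out p h1]
        rfl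
    rw [hbb _ (hd _ b00), hbb _ (hd _ hu')]
    exact hpr
  · -- r5
    intro _ p q hp hq h1 h2
    have m1 := (h.tauO (hd p hp)).1 h1
    have m2 := (h.tauO (hd q hq)).1 h2
    rw [h.out p m1, h.out q m2]
    exact ⟨rfl, rfl⟩
  · -- r6
    rintro ⟨p, hp, hp1, hp2⟩ _ q r hq hr' h1 h2
    have m1 := h.tauI hp1
    have m2 := (h.tauO (p := (p.1 + 1, p.2)) (by
      obtain ⟨x1, x2⟩ := hp
      apply hdd <;> dsimp only at * <;> omega)).1 hp2
    have key : ∀ q, InB (vx, vy) q → (F q).tau = Tau.I → (F q).g = 0 := by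
      intro q hq h1
      have m3 := h.tauI h1
      rw [h.g q (hd q hq) m3]
      have e := hF.gt q.1 q.2 m3.1 m3.2.1 (by
        have e1 := abs_le.1 (hS.tl p.2 q.2)
        have e2 := (ds_lt p q 1).1 (inB_ds2 hp hq)
        have e3 : |p.2 - q.2| ≤ 1 := by
          rw [abs_le]
          omega
        unfold Mm at m1 m2
        dsimp only at m1 m2
        rw [abs_le]
        omega)
      rw [Prod.mk.eta] at e
      rw [e]
      rfl
    rw [key q hq h1, key r hr' h2]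
  · -- r6'
    rintro ⟨p, hp, hp1, hp2⟩ _ q r hq hr' h1 h2
    have m1 := h.tauI hp1
    have m2 := (h.tauO (p := (p.1 - 1, p.2)) (by
      obtain ⟨x1, x2⟩ := hp
      apply hdd <;> dsimp only at * <;> omega)).1 hp2
    have key : ∀ q, InB (vx, vy) q → (F q).tau = Tau.I → (F q).g' = 0 := by
      intro q hq h1
      have m3 := h.tauI h1
      rw [h.g' q (hd q hq) m3]
      have e := hF.gs' q.1 q.2 m3.1 m3.2.1 (by
        have e1 := abs_le.1 (hS.sl p.2 q.2)
        have e2 := (ds_lt p q 1).1 (inB_ds2 hp hq)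
        have e3 : |p.2 - q.2| ≤ 1 := by
          rw [abs_le]
          omega
        unfold Mm at m1 m2
        dsimp only at m1 m2
        rw [abs_le]
        omega)
      rw [Prod.mk.eta] at e
      rw [e]
      rfl
    rw [key q hq h1, key r hr' h2]
  · -- r7
    rintro ⟨hv1, hv2⟩
    have m1 := h.tauI hv1
    have m2 := (h.tauO (hdd (vx - 1) vy (by omega) (by omega) (by omega) (by omega))).1 hv2
    have es : s vy = vx := by
      unfold Mm at m1 m2
      dsimp only at m1 m2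
      omega
    have hv0 : ds (vx, vy) (vx, vy) ≤ 2 := hd _ b00
    have main : ∀ x, x = vx ∨ x = vx + 1 ∨ x = vx - 1 → LW F (x, vy + 1) →
        Tick F (x, vy + 1) (vx, vy) ∧ s (vy + 1) = x ∧ Mm yb yt s t (x, vy + 1) ∧ vy + 1 ≤ yt ∧
          hm yb yt vy / 64 - hm yb yt (vy + 1) / 64 = inc (F (vx, vy)) ∧
          (F (x, vy + 1)).g = ((hm yb yt (vy + 1) / 64 : ℤ) : ZMod 3) ∧
          (F (vx, vy)).g = ((hm yb yt vy / 64 : ℤ) : ZMod 3) := by
      rintro x hx ⟨hu1, hu2⟩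
      have hux : ds (vx, vy) (x, vy + 1) ≤ 2 := hdd _ _ (by omega) (by omega) (by omega) (by omega)
      have hux' : ds (vx, vy) (x - 1, vy + 1) ≤ 2 := by
        rcases hx with rfl | rfl | rfl <;> exact hdd _ _ (by omega) (by omega) (by omega) (by omega)
      have n1 := h.tauI hu1
      have n2 := (h.tauO hux').1 hu2
      have eu : s (vy + 1) = x := by
        unfold Mm at n1 n2
        dsimp only at n1 n2
        omega
      have hy : vy + 1 ≤ yt := n1.2.1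
      have hck := h.ck _ hv0 m1
      have hph := h.ph _ hv0 m1
      refine ⟨⟨?_, ?_⟩, eu, n1, hy, step_up hS.mod m1.1 hy hck hph, ?_, ?_⟩
      · rw [hck, h.ck _ hux n1]
        push_cast
        ring
      · rw [hph, h.ph _ hux n1]
        simp only [decide_eq_true_eq]
        omega
      · rw [h.g _ hux n1, hF.gs x (vy + 1) n1.1 n1.2.1 (by rw [eu, sub_self, abs_zero]; norm_num)]
      · rw [h.g _ hv0 m1, hF.gs vx vy m1.1 m1.2.1 (by rw [es, sub_self, abs_zero]; norm_num)]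
    refine ⟨fun hu => ?_, fun hu => ?_, fun hu => ?_⟩
    · obtain ⟨k1, k2, k3, k4, k5, k6, k7⟩ := main vx (by omega) hu
      refine ⟨k1, ?_⟩
      dsimp only
      rw [k6, k7, dl_cast (abs_step k5 (inc_cases _)), k5]
    · obtain ⟨k1, k2, k3, k4, k5, k6, k7⟩ := main (vx + 1) (by omega) hu
      refine ⟨k1, ?_⟩
      have hc : Mm yb yt s t (vx + 1, vy) := by
        have := hS.s0 (vy + 1) k3.1 k3.2.1
        have := hS.t0 vy m1.1 m1.2.1
        unfold Mm at m1 ⊢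
        dsimp only at m1 ⊢
        omega
      have hcg : (F (vx + 1, vy)).g = ((hm yb yt vy / 64 : ℤ) : ZMod 3) := by
        rw [h.g _ (hd _ b10) hc, hF.gs (vx + 1) vy hc.1 hc.2.1 (by
          rw [es, show vx + 1 - vx = 1 by ring, abs_one]
          norm_num)]
      unfold dl2
      dsimp only
      rw [hcg, k6, k7, dl_cast (abs_step k5 (inc_cases _)), k5, sub_self]
      simp [dl]
    · obtain ⟨k1, k2, k3, k4, k5, k6, k7⟩ := main (vx - 1) (by omega) hu
      refine ⟨k1, ?_⟩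
      have hc : Mm yb yt s t (vx, vy + 1) := by
        have := hS.s0 vy m1.1 m1.2.1
        have := hS.t0 (vy + 1) k3.1 k3.2.1
        unfold Mm at m1 k3 ⊢
        dsimp only at m1 k3 ⊢
        omega
      have hcg : (F (vx, vy + 1)).g = ((hm yb yt (vy + 1) / 64 : ℤ) : ZMod 3) := by
        rw [h.g _ (hd _ b01) hc, hF.gs vx (vy + 1) hc.1 hc.2.1 (by
          rw [k2, show vx - (vx - 1) = 1 by ring, abs_one]
          norm_num)]
      unfold dl2
      dsimp only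
      rw [hcg, k6, k7, dl_cast (abs_step k5 (inc_cases _)), k5, sub_self]
      simp [dl]
  · -- r7'
    rintro ⟨hv1, hv2⟩
    have m1 := h.tauI hv1
    have m2 := (h.tauO (hdd (vx + 1) vy (by omega) (by omega) (by omega) (by omega))).1 hv2
    have es : t vy = vx := by
      unfold Mm at m1 m2
      dsimp only at m1 m2
      omega
    have hv0 : ds (vx, vy) (vx, vy) ≤ 2 := hd _ b00
    have main : ∀ x, x = vx ∨ x = vx + 1 ∨ x = vx - 1 → RW F (x, vy + 1) →
        Tick F (x, vy + 1) (vx, vy) ∧ t (vy + 1) = x ∧ Mm yb yt s t (x, vy + 1) ∧ vy + 1 ≤ yt ∧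
          hm yb yt vy / 64 - hm yb yt (vy + 1) / 64 = inc (F (vx, vy)) ∧
          (F (x, vy + 1)).g' = ((hm yb yt (vy + 1) / 64 : ℤ) : ZMod 3) ∧
          (F (vx, vy)).g' = ((hm yb yt vy / 64 : ℤ) : ZMod 3) := by
      rintro x hx ⟨hu1, hu2⟩
      have hux : ds (vx, vy) (x, vy + 1) ≤ 2 := hdd _ _ (by omega) (by omega) (by omega) (by omega)
      have hux' : ds (vx, vy) (x + 1, vy + 1) ≤ 2 := by
        rcases hx with rfl | rfl | rfl <;> exact hdd _ _ (by omega) (by omega) (by omega) (by omega)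
      have n1 := h.tauI hu1
      have n2 := (h.tauO hux').1 hu2
      have eu : t (vy + 1) = x := by
        unfold Mm at n1 n2
        dsimp only at n1 n2
        omega
      have hy : vy + 1 ≤ yt := n1.2.1
      have hck := h.ck _ hv0 m1
      have hph := h.ph _ hv0 m1
      refine ⟨⟨?_, ?_⟩, eu, n1, hy, step_up hS.mod m1.1 hy hck hph, ?_, ?_⟩
      · rw [hck, h.ck _ hux n1]
        push_cast
        ring
      · rw [hph, h.ph _ hux n1]
        simp only [decide_eq_true_eq]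
        omega
      · rw [h.g' _ hux n1, hF.gt' x (vy + 1) n1.1 n1.2.1 (by rw [eu, sub_self, abs_zero]; norm_num)]
      · rw [h.g' _ hv0 m1, hF.gt' vx vy m1.1 m1.2.1 (by rw [es, sub_self, abs_zero]; norm_num)]
    refine ⟨fun hu => ?_, fun hu => ?_, fun hu => ?_⟩
    · obtain ⟨k1, k2, k3, k4, k5, k6, k7⟩ := main vx (by omega) hu
      refine ⟨k1, ?_⟩
      dsimp only
      rw [k6, k7, dl_cast (abs_step k5 (inc_cases _)), k5]
    · obtain ⟨k1, k2, k3, k4, k5, k6, k7⟩ := main (vx - 1) (by omega) hu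
      refine ⟨k1, ?_⟩
      have hc : Mm yb yt s t (vx - 1, vy) := by
        have := hS.t0 (vy + 1) k3.1 k3.2.1
        have := hS.s0 vy m1.1 m1.2.1
        unfold Mm at m1 ⊢
        dsimp only at m1 ⊢
        omega
      have hcg : (F (vx - 1, vy)).g' = ((hm yb yt vy / 64 : ℤ) : ZMod 3) := by
        rw [h.g' _ (hdd _ _ (by omega) (by omega) (by omega) (by omega)) hc, hF.gt' (vx - 1) vy hc.1 hc.2.1 (by
          rw [es, show vx - 1 - vx = -1 by ring, abs_neg, abs_one]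
          norm_num)]
      unfold dl2
      dsimp only
      rw [hcg, k6, k7, dl_cast (abs_step k5 (inc_cases _)), k5, sub_self]
      simp [dl]
    · obtain ⟨k1, k2, k3, k4, k5, k6, k7⟩ := main (vx + 1) (by omega) hu
      refine ⟨k1, ?_⟩
      have hc : Mm yb yt s t (vx, vy + 1) := by
        have := hS.t0 vy m1.1 m1.2.1
        have := hS.s0 (vy + 1) k3.1 k3.2.1
        unfold Mm at m1 k3 ⊢
        dsimp only at m1 k3 ⊢
        omega
      have hcg : (F (vx, vy + 1)).g' = ((hm yb yt (vy + 1) / 64 : ℤ) : ZMod 3) := by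
        rw [h.g' _ (hd _ b01) hc, hF.gt' vx (vy + 1) hc.1 hc.2.1 (by
          rw [k2, show vx - (vx + 1) = -1 by ring, abs_neg, abs_one]
          norm_num)]
      unfold dl2
      dsimp only
      rw [hcg, k6, k7, dl_cast (abs_step k5 (inc_cases _)), k5, sub_self]
      simp [dl]

end SF
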