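import Pool.Agent.Helper13.SF.RuleA

/-!
# SF, Baire side: the rule near a smaller piece
-/

set_option autoImplicit false

namespace SF

/-- `FC` is the (extended) labelling of a smaller piece with the cells `M`; `F` is the labelling of the new piece. -/
structure NearB (F FC : ℤ × ℤ → Lab) (M : ℤ × ℤ → Prop) (G G' : ℤ × ℤ → ℤ) (v : ℤ × ℤ) : Prop where
  val : ∀ u, Rule FC u
  inn : ∀ p, ds v p ≤ 2 → M p → F p = FC p
  I : ∀ p, M p → (∃ q, ds p q ≤ 1 ∧ ¬ M q) → (FC p).tau = Tau.I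
  out : ∀ p, ¬ M p → (FC p).tau = Tau.O
  O : ∀ p, ds v p ≤ 2 → ¬ M p → (∃ q, ds p q ≤ 1 ∧ M q) → (F p).tau = Tau.O
  nI : ∀ p, ds v p ≤ 2 → ¬ M p → (F p).tau ≠ Tau.I
  b : ∀ p, ds v p ≤ 2 → ¬ M p → (F p).b = pr p
  g : ∀ p, ds v p ≤ 2 → ¬ M p → (F p).g = ((G p : ℤ) : ZMod 3)
  g' : ∀ p, ds v p ≤ 2 → ¬ M p → (F p).g' = ((G' p : ℤ) : ZMod 3)
  c : ∀ p q, ds v p ≤ 2 → ds v q ≤ 2 → ¬ M p → ¬ M q → (∃ r, ds p r ≤ 1 ∧ M r) →
    (∃ r, ds q r ≤ 1 ∧ M r) → G p = G q ∧ G' p = G' q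
  lip : ∀ p q : ℤ × ℤ, |p.1 - q.1| + |p.2 - q.2| ≤ 1 → G p ≤ G q + 1
  lip' : ∀ p q : ℤ × ℤ, |p.1 - q.1| + |p.2 - q.2| ≤ 1 → G' p ≤ G' q + 1

variable {F FC : ℤ × ℤ → Lab} {M : ℤ × ℤ → Prop} {G G' : ℤ × ℤ → ℤ} {v : ℤ × ℤ}

theorem NearB.tauI (h : NearB F FC M G G' v) {p : ℤ × ℤ} (hp : ds v p ≤ 2) (h1 : (F p).tau = Tau.I) :
    M p ∧ F p = FC p ∧ (FC p).tau = Tau.I := by
  have h2 : M p := by
    by_contra h2
    exact h.nI p hp h2 h1
  have h3 := h.inn p hp h2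
  exact ⟨h2, h3, h3 ▸ h1⟩

theorem NearB.tauO (h : NearB F FC M G G' v) {p : ℤ × ℤ} (hp : ds v p ≤ 2) (h1 : (F p).tau = Tau.O) :
    (FC p).tau = Tau.O := by
  by_cases h2 : M p
  · rw [← h.inn p hp h2]
    exact h1
  · exact h.out p h2

theorem NearB.memI (h : NearB F FC M G G' v) {p : ℤ × ℤ} (h1 : (FC p).tau = Tau.I) : M p := by
  by_contra h2
  rw [h.out p h2] at h1
  exact Tau.noConfusion h1

theorem tau_I {t : Tau} (h1 : t ≠ Tau.z) (h2 : t ≠ Tau.O) : t = Tau.I := by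
  cases t
  · exact absurd rfl h1
  · rfl
  · exact absurd rfl h2

theorem own_closed {H : ℤ × ℤ → ℤ} (hL : ∀ p q : ℤ × ℤ, |p.1 - q.1| + |p.2 - q.2| ≤ 1 → H p ≤ H q + 1)
    {f : Lab → ZMod 3} {F : ℤ × ℤ → Lab} {x y : ℤ} (h00 : f (F (x, y)) = ((H (x, y) : ℤ) : ZMod 3))
    (h10 : f (F (x + 1, y)) = ((H (x + 1, y) : ℤ) : ZMod 3))
    (h01 : f (F (x, y + 1)) = ((H (x, y + 1) : ℤ) : ZMod 3))
    (h11 : f (F (x + 1, y + 1)) = ((H (x + 1, y + 1) : ℤ) : ZMod 3)) :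
    dl2 F f (x, y) (x + 1, y) (x + 1, y + 1) = dl2 F f (x, y) (x, y + 1) (x + 1, y + 1) := by
  unfold dl2
  rw [h00, h10, h01, h11]
  have a1 : |(x + 1, y).1 - (x, y).1| + |(x + 1, y).2 - (x, y).2| ≤ 1 := by simp
  have a2 : |(x, y + 1).1 - (x, y).1| + |(x, y + 1).2 - (x, y).2| ≤ 1 := by simp
  have a3 : |(x + 1, y + 1).1 - (x + 1, y).1| + |(x + 1, y + 1).2 - (x + 1, y).2| ≤ 1 := by simp
  have a4 : |(x + 1, y + 1).1 - (x, y + 1).1| + |(x + 1, y + 1).2 - (x, y + 1).2| ≤ 1 := by simp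
  have sy : ∀ p q : ℤ × ℤ, |p.1 - q.1| + |p.2 - q.2| ≤ 1 → H p ≤ H q + 1 ∧ H q ≤ H p + 1 := by
    intro p q hpq
    refine ⟨hL p q hpq, hL q p ?_⟩
    rw [abs_sub_comm q.1, abs_sub_comm q.2]
    exact hpq
  rw [dl_cast' (sy _ _ a1).1 (sy _ _ a1).2, dl_cast' (sy _ _ a2).1 (sy _ _ a2).2,
    dl_cast' (sy _ _ a3).1 (sy _ _ a3).2, dl_cast' (sy _ _ a4).1 (sy _ _ a4).2]
  ring

theorem rule_b (h : NearB F FC M G G' v) : Rule F v := by
  obtain ⟨vx, vy⟩ := v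
  have hd : ∀ p : ℤ × ℤ, InB (vx, vy) p → ds (vx, vy) p ≤ 2 := fun p hp => (inB_ds hp).trans (by norm_num)
  have b00 : InB (vx, vy) (vx, vy) := ⟨Or.inl rfl, Or.inl rfl⟩
  have b10 : InB (vx, vy) (vx + 1, vy) := ⟨Or.inr rfl, Or.inl rfl⟩
  have b01 : InB (vx, vy) (vx, vy + 1) := ⟨Or.inl rfl, Or.inr rfl⟩
  have b11 : InB (vx, vy) (vx + 1, vy + 1) := ⟨Or.inr rfl, Or.inr rfl⟩
  have hdd : ∀ x y, vx - 2 ≤ x → x ≤ vx + 2 → vy - 2 ≤ y → y ≤ vy + 2 → ds (vx, vy) (x, y) ≤ 2 := by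
    intro x y h1 h2 h3 h4
    rw [ds_lt]
    dsimp only
    omega
  have R := h.val (vx, vy)
  -- the cells of a block on both sides
  have hst : ∀ p q, InB (vx, vy) p → InB (vx, vy) q → M p → ¬ M q →
      (F p).tau = Tau.I ∧ (F q).tau = Tau.O := by
    intro p q hp hq h1 h2
    refine ⟨?_, h.O q (hd q hq) h2 ⟨p, inB_ds2 hq hp, h1⟩⟩
    rw [h.inn p (hd p hp) h1]
    exact h.I p h1 ⟨q, inB_ds2 hp hq, h2⟩
  have hmC : Mixed F (vx, vy) → Mixed FC (vx, vy) := by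
    rintro ⟨⟨p, hp, h1⟩, q, hq, h2⟩
    exact ⟨⟨p, hp, (h.tauI (hd p hp) h1).2.2⟩, q, hq, h.tauO (hd q hq) h2⟩
  have hmix : ¬ Mixed F (vx, vy) → ∀ p q, InB (vx, vy) p → InB (vx, vy) q → M p → M q := by
    intro hm p q hp hq h1
    by_contra h2
    have h3 := hst p q hp hq h1 h2
    exact hm ⟨⟨p, hp, h3.1⟩, q, hq, h3.2⟩
  refine ⟨?_, ⟨?_, ?_⟩, ?_, ?_, ?_, ?_, ?_, ?_, ?_, ?_⟩
  · -- r1
    intro hm p hp
    obtain ⟨⟨q, hq, hq'⟩, _⟩ := id hm
    have m1 := (h.tauI (hd q hq) hq').1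
    by_cases h1 : M p
    · rw [h.inn p (hd p hp) h1]
      exact R.r1 (hmC hm) p hp
    · rw [h.O p (hd p hp) h1 ⟨q, inB_ds2 hp hq, m1⟩]
      decide
  · -- r1c
    rintro ⟨h1, h2, h3, h4⟩
    exact R.r1c.1 ⟨(h.tauI (hd _ b00) h1).2.2, (h.tauI (hd _ b11) h2).2.2, h.tauO (hd _ b10) h3,
      h.tauO (hd _ b01) h4⟩
  · rintro ⟨h1, h2, h3, h4⟩
    exact R.r1c.2 ⟨h.tauO (hd _ b00) h1, h.tauO (hd _ b11) h2, (h.tauI (hd _ b10) h3).2.2,
      (h.tauI (hd _ b01) h4).2.2⟩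
  · -- r2
    intro h1 h2
    have k1 := h.tauI (hd _ b00) h1
    have d1 : ds (vx, vy) (vx, vy - 1) ≤ 2 := hdd _ _ (by omega) (by omega) (by omega) (by omega)
    have d2 : ds (vx, vy) (vx - 1, vy) ≤ 2 := hdd _ _ (by omega) (by omega) (by omega) (by omega)
    have k2 := R.r2 k1.2.2 (h2.imp (fun h3 => h.tauO (hd _ b01) h3) (fun h3 => h.tauO d1 h3))
    have key : ∀ p, ds (vx, vy) p ≤ 2 → ds p (vx, vy) ≤ 1 → (FC p).tau = Tau.O → (F p).tau = Tau.O := by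
      intro p hp hp' h3
      by_cases h4 : M p
      · rw [h.inn p hp h4]
        exact h3
      · exact h.O p hp h4 ⟨_, hp', k1.1⟩
    refine k2.imp (fun h3 => ?_) (fun h3 => ?_)
    · exact key _ (hd _ b10) (by rw [ds_lt]; dsimp only; omega) h3
    · exact key _ d2 (by rw [ds_lt]; dsimp only; omega) h3
  · -- r3
    intro hm hh hhm
    by_cases h1 : M (vx, vy)
    · have m1 := hmix hm _ _ b00 b10 h1
      have m2 := hmix hm _ _ b00 b01 h1
      have m3 := hmix hm _ _ b00 b11 h1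
      have e0 := h.inn _ (hd _ b00) h1
      have e1 := h.inn _ (hd _ b10) m1
      have e2 := h.inn _ (hd _ b01) m2
      have e3 := h.inn _ (hd _ b11) m3
      have hn : ¬ Mixed FC (vx, vy) := by
        rintro ⟨⟨p, hp, h2⟩, q, hq, h3⟩
        refine hm ⟨⟨p, hp, ?_⟩, q, hq, ?_⟩
        · rw [h.inn p (hd p hp) (hmix hm _ _ b00 hp h1)]
          exact h2
        · rw [h.inn q (hd q hq) (hmix hm _ _ b00 hq h1)]
          exact h3
      have := R.r3 hn hh hhm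
      unfold dl2 at this ⊢
      rw [e0, e1, e2, e3]
      exact this
    · have m1 : ¬ M (vx + 1, vy) := fun h2 => h1 (hmix hm _ _ b10 b00 h2)
      have m2 : ¬ M (vx, vy + 1) := fun h2 => h1 (hmix hm _ _ b01 b00 h2)
      have m3 : ¬ M (vx + 1, vy + 1) := fun h2 => h1 (hmix hm _ _ b11 b00 h2)
      simp only [List.mem_cons, List.not_mem_nil, or_false] at hhm
      rcases hhm with rfl | rfl
      · exact own_closed h.lip (h.g _ (hd _ b00) h1) (h.g _ (hd _ b10) m1) (h.g _ (hd _ b01) m2)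
          (h.g _ (hd _ b11) m3)
      · exact own_closed h.lip' (h.g' _ (hd _ b00) h1) (h.g' _ (hd _ b10) m1) (h.g' _ (hd _ b01) m2)
          (h.g' _ (hd _ b11) m3)
  · -- r4
    intro u hu hio
    have hu2 := hu
    simp only [List.mem_cons, List.not_mem_nil, or_false] at hu2
    have hu' : InB (vx, vy) u := by
      rcases hu2 with rfl | rfl
      · exact b10
      · exact b01
    have hpr : pr (vx, vy) ≠ pr u := by
      rcases hu2 with rfl | rfl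
      · exact pr_right vx vy
      · exact pr_up vx vy
    by_cases h1 : M (vx, vy)
    · by_cases h2 : M u
      · rw [h.inn _ (hd _ b00) h1, h.inn _ (hd _ hu') h2]
        refine R.r4 u hu ?_
        unfold IO at hio ⊢
        rwa [h.inn _ (hd _ b00) h1, h.inn _ (hd _ hu') h2] at hio
      · exact absurd (Or.inl (hst _ _ b00 hu' h1 h2)) hio
    · by_cases h2 : M u
      · exact absurd (Or.inr (hst _ _ hu' b00 h2 h1).symm) hio
      · rw [h.b _ (hd _ b00) h1, h.b _ (hd _ hu') h2]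
        exact hpr
  · -- r5
    intro hm p q hp hq h1 h2
    obtain ⟨⟨r, hr, hr'⟩, _⟩ := id hm
    have mr := (h.tauI (hd r hr) hr').1
    by_cases m1 : M p
    · have h3 : M q := by
        by_contra h3
        have := (hst p q hp hq m1 h3).1
        rw [h1] at this
        exact Tau.noConfusion this
      rw [h.inn p (hd p hp) m1, h.inn q (hd q hq) h3]
      exact R.r5 (hmC hm) p q hp hq (h.tauO (hd p hp) h1) (h.tauO (hd q hq) h2)
    · have m2 : ¬ M q := by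
        intro m2
        have := (hst q p hq hp m2 m1).1
        rw [h2] at this
        exact Tau.noConfusion this
      have e := h.c p q (hd p hp) (hd q hq) m1 m2 ⟨r, inB_ds2 hp hr, mr⟩ ⟨r, inB_ds2 hq hr, mr⟩
      rw [h.g p (hd p hp) m1, h.g q (hd q hq) m2, h.g' p (hd p hp) m1, h.g' q (hd q hq) m2, e.1, e.2]
      exact ⟨rfl, rfl⟩
  · -- r6
    rintro ⟨p, hp, hp1, hp2⟩ hm q r hq hr h1 h2
    have k1 := h.tauI (hd q hq) h1
    have k2 := h.tauI (hd r hr) h2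
    have d1 : ds (vx, vy) (p.1 + 1, p.2) ≤ 2 := by
      obtain ⟨x1, x2⟩ := hp
      apply hdd <;> dsimp only at * <;> omega
    rw [k1.2.1, k2.2.1]
    exact R.r6 ⟨p, hp, (h.tauI (hd p hp) hp1).2.2, h.tauO d1 hp2⟩ (hmC hm) q r hq hr k1.2.2 k2.2.2
  · -- r6'
    rintro ⟨p, hp, hp1, hp2⟩ hm q r hq hr h1 h2
    have k1 := h.tauI (hd q hq) h1
    have k2 := h.tauI (hd r hr) h2
    have d1 : ds (vx, vy) (p.1 - 1, p.2) ≤ 2 := by
      obtain ⟨x1, x2⟩ := hp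
      apply hdd <;> dsimp only at * <;> omega
    rw [k1.2.1, k2.2.1]
    exact R.r6' ⟨p, hp, (h.tauI (hd p hp) hp1).2.2, h.tauO d1 hp2⟩ (hmC hm) q r hq hr k1.2.2 k2.2.2
  · -- r7
    rintro ⟨hv1, hv2⟩
    have kv := h.tauI (hd _ b00) hv1
    have kv' := h.tauO (hdd (vx - 1) vy (by omega) (by omega) (by omega) (by omega)) hv2
    have R7 := R.r7 ⟨kv.2.2, kv'⟩
    have main : ∀ x, x = vx ∨ x = vx + 1 ∨ x = vx - 1 → LW F (x, vy + 1) →
        LW FC (x, vy + 1) ∧ F (x, vy + 1) = FC (x, vy + 1) ∧ (FC (x - 1, vy + 1)).tau = Tau.O := by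
      rintro x hx ⟨hu1, hu2⟩
      have hux : ds (vx, vy) (x, vy + 1) ≤ 2 := hdd _ _ (by omega) (by omega) (by omega) (by omega)
      have hux' : ds (vx, vy) (x - 1, vy + 1) ≤ 2 := by
        rcases hx with rfl | rfl | rfl <;> exact hdd _ _ (by omega) (by omega) (by omega) (by omega)
      have k1 := h.tauI hux hu1
      have k2 := h.tauO hux' hu2
      exact ⟨⟨k1.2.2, k2⟩, k1.2.1, k2⟩
    refine ⟨fun hu => ?_, fun hu => ?_, fun hu => ?_⟩
    · obtain ⟨k1, k2, k3⟩ := main vx (by omega) hu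
      have := R7.1 k1
      unfold Tick at this ⊢
      dsimp only at this ⊢
      rw [k2, kv.2.1]
      exact this
    · obtain ⟨k1, k2, k3⟩ := main (vx + 1) (by omega) hu
      rw [show vx + 1 - 1 = vx by ring] at k3
      have hc : (FC (vx + 1, vy)).tau = Tau.I := by
        refine tau_I (R.r1 ⟨⟨_, b00, kv.2.2⟩, _, b01, k3⟩ _ b10) fun h1 => ?_
        exact R.r1c.1 ⟨kv.2.2, k1.1, h1, k3⟩
      have e := h.inn _ (hd _ b10) (h.memI hc)
      have := R7.2.1 k1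
      unfold Tick dl2 at this ⊢
      dsimp only at this ⊢
      rw [k2, kv.2.1, e]
      exact this
    · obtain ⟨k1, k2, k3⟩ := main (vx - 1) (by omega) hu
      have R' := h.val (vx - 1, vy)
      have hc : (FC (vx, vy + 1)).tau = Tau.I := by
        have h1 := R'.r1 ⟨⟨(vx - 1, vy + 1), ⟨Or.inl rfl, Or.inr rfl⟩, k1.1⟩, (vx - 1, vy),
          ⟨Or.inl rfl, Or.inl rfl⟩, kv'⟩ (vx, vy + 1) ⟨Or.inr (by dsimp only; omega), Or.inr rfl⟩
        refine tau_I h1 fun h2 => ?_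
        have h3 := R'.r1c.2
        simp only [show vx - 1 + 1 = vx by ring] at h3
        exact h3 ⟨kv', h2, kv.2.2, k1.1⟩
      have e := h.inn _ (hd _ b01) (h.memI hc)
      have := R7.2.2 k1
      unfold Tick dl2 at this ⊢
      dsimp only at this ⊢
      rw [k2, kv.2.1, e]
      exact this
  · -- r7'
    rintro ⟨hv1, hv2⟩
    have kv := h.tauI (hd _ b00) hv1
    have kv' := h.tauO (hdd (vx + 1) vy (by omega) (by omega) (by omega) (by omega)) hv2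
    have R7 := R.r7' ⟨kv.2.2, kv'⟩
    have main : ∀ x, x = vx ∨ x = vx + 1 ∨ x = vx - 1 → RW F (x, vy + 1) →
        RW FC (x, vy + 1) ∧ F (x, vy + 1) = FC (x, vy + 1) ∧ (FC (x + 1, vy + 1)).tau = Tau.O := by
      rintro x hx ⟨hu1, hu2⟩
      have hux : ds (vx, vy) (x, vy + 1) ≤ 2 := hdd _ _ (by omega) (by omega) (by omega) (by omega)
      have hux' : ds (vx, vy) (x + 1, vy + 1) ≤ 2 := by
        rcases hx with rfl | rfl | rfl <;> exact hdd _ _ (by omega) (by omega) (by omega) (by omega)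
      have k1 := h.tauI hux hu1
      have k2 := h.tauO hux' hu2
      exact ⟨⟨k1.2.2, k2⟩, k1.2.1, k2⟩
    refine ⟨fun hu => ?_, fun hu => ?_, fun hu => ?_⟩
    · obtain ⟨k1, k2, k3⟩ := main vx (by omega) hu
      have := R7.1 k1
      unfold Tick at this ⊢
      dsimp only at this ⊢
      rw [k2, kv.2.1]
      exact this
    · obtain ⟨k1, k2, k3⟩ := main (vx - 1) (by omega) hu
      rw [show vx - 1 + 1 = vx by ring] at k3
      have R' := h.val (vx - 1, vy)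
      have hc : (FC (vx - 1, vy)).tau = Tau.I := by
        have h1 := R'.r1 ⟨⟨(vx - 1, vy + 1), ⟨Or.inl rfl, Or.inr rfl⟩, k1.1⟩, (vx, vy + 1),
          ⟨Or.inr (by dsimp only; omega), Or.inr rfl⟩, k3⟩ (vx - 1, vy) ⟨Or.inl rfl, Or.inl rfl⟩
        refine tau_I h1 fun h2 => ?_
        have h3 := R'.r1c.2
        simp only [show vx - 1 + 1 = vx by ring] at h3
        exact h3 ⟨h2, k3, kv.2.2, k1.1⟩
      have e := h.inn _ (hdd (vx - 1) vy (by omega) (by omega) (by omega) (by omega)) (h.memI hc)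
      have := R7.2.1 k1
      unfold Tick dl2 at this ⊢
      dsimp only at this ⊢
      rw [k2, kv.2.1, e]
      exact this
    · obtain ⟨k1, k2, k3⟩ := main (vx + 1) (by omega) hu
      have hc : (FC (vx, vy + 1)).tau = Tau.I := by
        refine tau_I (R.r1 ⟨⟨_, b00, kv.2.2⟩, _, b10, kv'⟩ _ b01) fun h1 => ?_
        exact R.r1c.1 ⟨kv.2.2, k1.1, kv', h1⟩
      have e := h.inn _ (hd _ b01) (h.memI hc)
      have := R7.2.2 k1
      unfold Tick dl2 at this ⊢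
      dsimp only at this ⊢
      rw [k2, kv.2.1, e]
      exact this

end SF
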