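import Pool.Agent.Helper20.SF.RowThm
import Pool.Agent.Helper27.EB.Defs

/-!
# SF, measure side (e): heights in a row are bounded, and the parity of the highest cells contradicts the ergodicity of `2 e_1`
-/

set_option autoImplicit false

namespace SF

open MeasureTheory EB

/-- the increments in the row of `0` -/
def ri (F : ℤ × ℤ → Lab) (i : ℤ) : ℤ := io (F (i, 0)) (F (i + 1, 0))

/-- the height in the row of `0` -/
def Hh (F : ℤ × ℤ → Lab) (i : ℤ) : ℤ :=
  if 0 ≤ i then ∑ j ∈ Finset.range i.toNat, ri F j else -∑ j ∈ Finset.range (-i).toNat, ri F (-(j + 1))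

theorem Hh_zero (F : ℤ × ℤ → Lab) : Hh F 0 = 0 := by simp [Hh]

theorem Hh_succ (F : ℤ × ℤ → Lab) (i : ℤ) : Hh F (i + 1) = Hh F i + ri F i := by
  unfold Hh
  rcases lt_trichotomy i (-1) with h | h | h
  · rw [if_neg (by omega), if_neg (by omega)]
    have e : (-i).toNat = (-(i + 1)).toNat + 1 := by omega
    rw [e, Finset.sum_range_succ]
    have e2 : -((((-(i + 1)).toNat : ℕ) : ℤ) + 1) = i := by omega
    rw [e2]
    ring
  · subst h
    simp
  · rw [if_pos (by omega), if_pos (by omega)]
    have e : (i + 1).toNat = i.toNat + 1 := by omega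
    rw [e, Finset.sum_range_succ]
    have e2 : ((i.toNat : ℕ) : ℤ) = i := by omega
    rw [e2]

theorem io_cases (p q : Lab) : io p q = -1 ∨ io p q = 0 ∨ io p q = 1 := by
  unfold io
  split_ifs <;> simp

theorem io_one {p q : Lab} (h : io p q = 1) : p.tau = Tau.I ∧ q.tau = Tau.O := by
  unfold io at h
  split_ifs at h with h1 h2
  · exact h1
  · exact absurd h (by norm_num)

theorem io_neg {p q : Lab} (h : io p q = -1) : p.tau = Tau.O ∧ q.tau = Tau.I := by
  unfold io at h
  split_ifs at h with h1 h2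
  exact h2

theorem io_swap (p q : Lab) : io q p = -io p q := by
  unfold io
  rcases p with ⟨t, _, _, _, _, _⟩
  rcases q with ⟨t', _, _, _, _, _⟩
  cases t <;> cases t' <;> simp

theorem rel_Hh (F : ℤ × ℤ → Lab) (a : ℤ) (i : ℕ) : rel F (a, 0) i = Hh F (a + i) - Hh F a := by
  unfold rel
  induction i with
  | zero => simp
  | succ i ih =>
    rw [Finset.sum_range_succ, ih]
    have := Hh_succ F (a + i)
    unfold ri at this
    push_cast
    rw [← add_assoc, this]
    ring

theorem rel_mir (F : ℤ × ℤ → Lab) (a : ℤ) (i : ℕ) :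
    rel (mir F) (-a, 0) i = Hh F (a - i) - Hh F a := by
  unfold rel
  induction i with
  | zero => simp
  | succ i ih =>
    rw [Finset.sum_range_succ, ih]
    have h1 := Hh_succ F (a - i - 1)
    unfold ri at h1
    rw [show a - (i : ℤ) - 1 + 1 = a - i by ring] at h1
    have h2 : io (mir F (-a + i, 0)) (mir F (-a + i + 1, 0)) = -io (F (a - i - 1, 0)) (F (a - i, 0)) := by
      rw [← io_swap]
      unfold mir io
      dsimp only
      rw [show -(-a + (i : ℤ)) = a - i by ring, show -(-a + (i : ℤ) + 1) = a - i - 1 by ring]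
    rw [h2]
    push_cast
    rw [show a - ((i : ℤ) + 1) = a - i - 1 by ring]
    linarith

theorem step_le (F : ℤ × ℤ → Lab) (i : ℤ) : Hh F (i + 1) ≤ Hh F i + 1 ∧ Hh F i ≤ Hh F (i + 1) + 1 := by
  have h1 := Hh_succ F i
  have h2 := io_cases (F (i, 0)) (F (i + 1, 0))
  unfold ri at h1
  omega

/-- first passage to the right -/
theorem right_end (F : ℤ × ℤ → Lab) {k : ℤ} (hk : 0 ≤ k) (h : ∃ i : ℕ, k < Hh F i) :
    ∃ b : ℕ, (∀ i : ℕ, i ≤ b → Hh F i ≤ k) ∧ Hh F (b + 1) = k + 1 ∧ Hh F b = k := by
  classical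
  have h0 : Hh F ((0 : ℕ) : ℤ) ≤ k := by
    rw [Nat.cast_zero, Hh_zero]
    exact hk
  have h1 := Nat.find_spec h
  have h2 : ∀ i, i < Nat.find h → Hh F i ≤ k := fun i hi => not_lt.1 (Nat.find_min h hi)
  have h3 : Nat.find h ≠ 0 := by
    intro h3
    rw [h3] at h1
    omega
  obtain ⟨b, hb⟩ := Nat.exists_eq_succ_of_ne_zero h3
  rw [hb] at h1 h2
  have h4 := h2 b (Nat.lt_succ_self b)
  have h5 := step_le F b
  push_cast at h1
  refine ⟨b, fun i hi => h2 i (Nat.lt_succ_of_le hi), ?_, ?_⟩
  · omega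
  · omega

/-- first passage to the left -/
theorem left_end (F : ℤ × ℤ → Lab) {k : ℤ} (hk : 0 ≤ k) (h : ∃ i : ℕ, k < Hh F (-i)) :
    ∃ b : ℕ, (∀ i : ℕ, i ≤ b → Hh F (-i) ≤ k) ∧ Hh F (-b - 1) = k + 1 ∧ Hh F (-b) = k := by
  classical
  have h0 : Hh F (-((0 : ℕ) : ℤ)) ≤ k := by
    rw [Nat.cast_zero, neg_zero, Hh_zero]
    exact hk
  have h1 := Nat.find_spec h
  have h2 : ∀ i, i < Nat.find h → Hh F (-i) ≤ k := fun i hi => not_lt.1 (Nat.find_min h hi)
  have h3 : Nat.find h ≠ 0 := by
    intro h3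
    rw [h3] at h1
    omega
  obtain ⟨b, hb⟩ := Nat.exists_eq_succ_of_ne_zero h3
  rw [hb] at h1 h2
  have h4 := h2 b (Nat.lt_succ_self b)
  have h5 := step_le F (-b - 1)
  rw [show -(b : ℤ) - 1 + 1 = -b by ring] at h5
  push_cast at h1
  rw [show -((b : ℤ) + 1) = -b - 1 by ring] at h1
  refine ⟨b, fun i hi => h2 i (Nat.lt_succ_of_le hi), ?_, ?_⟩
  · omega
  · omega

theorem bounded_row (F : ℤ × ℤ → Lab) (hir : ∀ v, ¬ IR F v) (hir' : ∀ v, ¬ IR (mir F) v)
    (hN : {i : ℕ | ∃ l, i ≤ l ∧ FR F (-(i : ℤ), 0) l}.Finite) : ∃ K, ∀ i, Hh F i ≤ K := by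
  by_contra hcon
  push Not at hcon
  have key : ∀ k : ℕ, ∃ a : ℕ, (∃ l, a ≤ l ∧ FR F (-(a : ℤ), 0) l) ∧ Hh F (-a - 1) = k + 1 := by
    intro k
    have hk : (0 : ℤ) ≤ k := Int.natCast_nonneg k
    by_cases hr : ∃ i : ℕ, (k : ℤ) < Hh F i
    · obtain ⟨b, hb1, hb2, hb3⟩ := right_end F hk hr
      by_cases hl : ∃ i : ℕ, (k : ℤ) < Hh F (-i)
      · obtain ⟨a, ha1, ha2, ha3⟩ := left_end F hk hl
        refine ⟨a, ⟨a + b, Nat.le_add_right a b, ?_, ?_, ?_⟩, ha2⟩
        · have h1 := Hh_succ F (-a - 1)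
          rw [show -(a : ℤ) - 1 + 1 = -a by ring, ha2, ha3] at h1
          have h2 : io (F (-a - 1, 0)) (F (-a - 1 + 1, 0)) = -1 := by
            unfold ri at h1
            omega
          rw [show -(a : ℤ) - 1 + 1 = -a by ring] at h2
          exact ⟨(io_neg h2).2, (io_neg h2).1⟩
        · intro i hi
          rw [rel_Hh, ha3]
          by_cases h1 : i ≤ a
          · have h2 := ha1 (a - i) (by omega)
            have e : (-((a - i : ℕ) : ℤ)) = -a + i := by omega
            rw [e] at h2
            omega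
          · have h2 := hb1 (i - a) (by omega)
            have e : (((i - a : ℕ) : ℕ) : ℤ) = -a + i := by omega
            rw [e] at h2
            omega
        · rw [rel_Hh, ha3]
          have e : -(a : ℤ) + ((a + b + 1 : ℕ) : ℤ) = b + 1 := by
            push_cast
            ring
          rw [e, hb2]
          ring
      · exfalso
        push Not at hl
        refine hir' (-(b : ℤ), 0) ⟨⟨?_, ?_⟩, ?_⟩
        · have h1 := Hh_succ F b
          rw [hb2, hb3] at h1
          have h2 : io (F (b, 0)) (F (b + 1, 0)) = 1 := by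
            unfold ri at h1
            omega
          unfold mir
          dsimp only
          rw [neg_neg]
          exact (io_one h2).1
        · have h1 := Hh_succ F b
          rw [hb2, hb3] at h1
          have h2 : io (F (b, 0)) (F (b + 1, 0)) = 1 := by
            unfold ri at h1
            omega
          unfold mir
          dsimp only
          rw [show -(-(b : ℤ) - 1) = b + 1 by ring]
          exact (io_one h2).2
        · intro i
          rw [rel_mir, hb3]
          by_cases h1 : i ≤ b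
          · have h2 := hb1 (b - i) (by omega)
            have e : (((b - i : ℕ) : ℕ) : ℤ) = b - i := by omega
            rw [e] at h2
            omega
          · have h2 := hl (i - b)
            have e : -(((i - b : ℕ) : ℕ) : ℤ) = b - i := by omega
            rw [e] at h2
            omega
    · push Not at hr
      have hl : ∃ i : ℕ, (k : ℤ) < Hh F (-i) := by
        obtain ⟨i, hi⟩ := hcon k
        rcases le_or_gt 0 i with h1 | h1
        · have := hr i.toNat
          rw [show ((i.toNat : ℕ) : ℤ) = i by omega] at this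
          omega
        · refine ⟨(-i).toNat, ?_⟩
          rw [show -(((-i).toNat : ℕ) : ℤ) = i by omega]
          exact hi
      exfalso
      obtain ⟨a, ha1, ha2, ha3⟩ := left_end F hk hl
      refine hir (-(a : ℤ), 0) ⟨?_, ?_⟩
      · have h1 := Hh_succ F (-a - 1)
        rw [show -(a : ℤ) - 1 + 1 = -a by ring, ha2, ha3] at h1
        have h2 : io (F (-a - 1, 0)) (F (-a - 1 + 1, 0)) = -1 := by
          unfold ri at h1
          omega
        rw [show -(a : ℤ) - 1 + 1 = -a by ring] at h2
        exact ⟨(io_neg h2).2, (io_neg h2).1⟩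
      · intro i
        rw [rel_Hh, ha3]
        by_cases h1 : i ≤ a
        · have h2 := ha1 (a - i) (by omega)
          have e : (-((a - i : ℕ) : ℤ)) = -a + i := by omega
          rw [e] at h2
          omega
        · have h2 := hr (i - a)
          have e : (((i - a : ℕ) : ℕ) : ℤ) = -a + i := by omega
          rw [e] at h2
          omega
  choose a ha1 ha2 using key
  have hinj : Function.Injective a := by
    intro k k' h
    have h1 := ha2 k
    have h2 := ha2 k'
    rw [h] at h1
    omega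
  exact Set.infinite_of_injective_forall_mem hinj ha1 hN

/-- the cell `(j, 0)` is highest in its row -/
def TopAt (F : ℤ × ℤ → Lab) (j : ℤ) : Prop := ∀ i, Hh F i ≤ Hh F j

theorem top_exists {F : ℤ × ℤ → Lab} (h : ∃ K, ∀ i, Hh F i ≤ K) : ∃ j, TopAt F j := by
  obtain ⟨K, hK⟩ := h
  have hb : BddAbove (Set.range (Hh F)) := ⟨K, by rintro _ ⟨i, rfl⟩; exact hK i⟩
  have hn : (Set.range (Hh F)).Nonempty := ⟨_, 0, rfl⟩
  obtain ⟨j, hj⟩ := Int.csSup_mem hn hb
  exact ⟨j, fun i => hj ▸ le_csSup hb ⟨i, rfl⟩⟩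

theorem qq_const {F : ℤ × ℤ → Lab} (hR : ∀ v, Rule F v) (hf : ∀ v l, FR F v l → Fin1 F v) (n : ℕ) :
    ∀ i j : ℤ, j - i = n → TopAt F i → TopAt F j → qq F (i, 0) = qq F (j, 0) := by
  classical
  induction n using Nat.strong_induction_on with
  | _ n ih =>
    intro i j hn hi hj
    by_cases h0 : n = 0
    · subst h0
      have : i = j := by
        push_cast at hn
        omega
      rw [this]
    · have hij : Hh F i = Hh F j := le_antisymm (hj i) (hi j)
      -- the next highest cell
      have hex : ∃ m : ℕ, 0 < m ∧ Hh F (i + m) = Hh F i := ⟨n, by omega, by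
        rw [show i + (n : ℤ) = j by omega, hij]⟩
      have hm := Nat.find_spec hex
      have hmin : ∀ m', 0 < m' → m' < Nat.find hex → Hh F (i + m') < Hh F i := by
        intro m' h1 h2
        have h3 := Nat.find_min hex h2
        have h4 := hi (i + m')
        push Not at h3
        exact lt_of_le_of_ne h4 (h3 h1)
      set m := Nat.find hex with hmd
      have hmn : m ≤ n := Nat.find_min' hex ⟨by omega, by rw [show i + (n : ℤ) = j by omega, hij]⟩
      have htop : TopAt F (i + m) := fun t => by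
        rw [hm.2]
        exact hi t
      have key : qq F (i, 0) = qq F (i + m, 0) := by
        by_cases h1 : m = 1
        · rw [h1] at hm ⊢
          have h2 := Hh_succ F i
          have h3 := hm.2
          push_cast at h3 ⊢
          refine parity_adj hR ?_
          unfold ri at h2
          dsimp only
          omega
        · have h2 := hmin 1 one_pos (by omega)
          push_cast at h2
          have h3 := step_le F i
          have h4 : Hh F (i + 1) = Hh F i - 1 := by omega
          have h5 := Hh_succ F i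
          have h6 : io (F (i, 0)) (F (i + 1, 0)) = -1 := by
            unfold ri at h5
            omega
          have hfr : FR F (i + 1, 0) (m - 2) := by
            refine ⟨⟨(io_neg h6).2, ?_⟩, ?_, ?_⟩
            · dsimp only
              rw [add_sub_cancel_right]
              exact (io_neg h6).1
            · intro t ht
              rw [rel_Hh, h4]
              have h7 := hmin (t + 1) (by omega) (by omega)
              rw [show i + 1 + (t : ℤ) = i + ((t + 1 : ℕ) : ℤ) by push_cast; ring]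
              omega
            · rw [rel_Hh, h4, show i + 1 + ((m - 2 + 1 : ℕ) : ℤ) = i + m by omega, hm.2]
              ring
          have h8 := parity hR hfr (hf _ _ hfr)
          dsimp only at h8
          rw [add_sub_cancel_right, show i + 1 + ((m - 2 : ℕ) : ℤ) + 1 = i + m by omega] at h8
          exact h8
      rw [key]
      exact ih (n - m) (by omega) (i + m) j (by omega) htop hj

theorem qq_top {F : ℤ × ℤ → Lab} (hR : ∀ v, Rule F v) (hf : ∀ v l, FR F v l → Fin1 F v) {i j : ℤ}
    (hi : TopAt F i) (hj : TopAt F j) : qq F (i, 0) = qq F (j, 0) := by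
  rcases le_total i j with h | h
  · exact qq_const hR hf (j - i).toNat i j (by omega) hi hj
  · exact (qq_const hR hf (i - j).toNat j i (by omega) hj hi).symm

section
variable {X : Type} [MeasurableSpace X] {e1 : X → X} {F : X → ℤ × ℤ → Lab}

theorem Hh_shift (hF1 : ∀ x v, F (e1 x) v = F x (v.1 + 1, v.2)) (x : X) (i : ℤ) :
    Hh (F (e1 x)) i = Hh (F x) (i + 1) - Hh (F x) 1 := by
  have hr : ∀ i, ri (F (e1 x)) i = ri (F x) (i + 1) := by
    intro i
    unfold ri
    rw [hF1, hF1]
  have h1 : ∀ i, Hh (F (e1 x)) (i + 1) - Hh (F x) (i + 1 + 1) = Hh (F (e1 x)) i - Hh (F x) (i + 1) := by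
    intro i
    rw [Hh_succ, Hh_succ (F x), hr]
    ring
  have h2 : ∀ i, Hh (F (e1 x)) i - Hh (F x) (i + 1) = -Hh (F x) 1 := by
    intro i
    induction i using Int.induction_on with
    | zero => simp [Hh_zero]
    | succ i ih => rw [h1, ih]
    | pred i ih =>
      have := h1 (-i - 1)
      rw [show -(i : ℤ) - 1 + 1 = -i by ring] at this ⊢
      rw [← this, ih]
  have := h2 i
  linarith

theorem topAt_shift (hF1 : ∀ x v, F (e1 x) v = F x (v.1 + 1, v.2)) (x : X) (j : ℤ) :
    TopAt (F (e1 x)) j ↔ TopAt (F x) (j + 1) := by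
  unfold TopAt
  constructor
  · intro h i
    have := h (i - 1)
    rw [Hh_shift hF1, Hh_shift hF1, sub_add_cancel] at this
    omega
  · intro h i
    have := h (i + 1)
    rw [Hh_shift hF1, Hh_shift hF1]
    omega

theorem qq_shift (hF1 : ∀ x v, F (e1 x) v = F x (v.1 + 1, v.2)) (x : X) (j : ℤ) :
    qq (F (e1 x)) (j, 0) = !qq (F x) (j + 1, 0) := by
  unfold qq
  rw [hF1]
  dsimp only
  have h : (decide ((j + 0) % 2 = 0)) = !decide ((j + 1 + 0) % 2 = 0) := by
    by_cases h : (j + 0) % 2 = 0
    · have h2 : ¬ (j + 1 + 0) % 2 = 0 := by omega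
      rw [decide_eq_true h, decide_eq_false h2]
      rfl
    · have h2 : (j + 1 + 0) % 2 = 0 := by omega
      rw [decide_eq_false h, decide_eq_true h2]
      rfl
  rw [h]
  cases (F x (j + 1, 0)).b <;> cases decide ((j + 1 + 0) % 2 = 0) <;> rfl

theorem Hh_ms (hFm : ∀ v, Ms fun x => F x v) (i : ℤ) : Measurable fun x => Hh (F x) i := by
  have hr : ∀ i, Measurable fun x => ri (F x) i := by
    intro i
    have h0 : Countable Lab := by
      have h : Function.Injective (fun c : Lab => (c.tau, c.b, c.g, c.g', c.ph, c.ck)) := by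
        rintro ⟨_, _, _, _, _, _⟩ ⟨_, _, _, _, _, _⟩ h
        simp only [Prod.mk.injEq] at h
        obtain ⟨rfl, rfl, rfl, rfl, rfl, rfl⟩ := h
        rfl
      exact h.countable
    exact ((hFm (i, 0)).map2 (hFm (i + 1, 0)) fun p q => io p q).measurable
  unfold Hh
  by_cases h : 0 ≤ i
  · simp only [h, if_true]
    exact Finset.measurable_sum _ fun j _ => hr _
  · simp only [h, if_false]
    exact (Finset.measurable_sum _ fun j _ => hr _).neg

theorem no_sol_row (μ : Measure X) [IsProbabilityMeasure μ] (h1 : MeasurePreserving e1 μ μ)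
    (herg : Ergodic (fun x => e1 (e1 x)) μ) (hF1 : ∀ x v, F (e1 x) v = F x (v.1 + 1, v.2))
    (hFm : ∀ v, Ms fun x => F x v) (hR : ∀ᵐ x ∂μ, ∀ v, Rule (F x) v)
    (hf : ∀ᵐ x ∂μ, ∀ v l, FR (F x) v l → Fin1 (F x) v) (hir : ∀ᵐ x ∂μ, ∀ v, ¬ IR (F x) v)
    (hir' : ∀ᵐ x ∂μ, ∀ v, ¬ IR (mir (F x)) v)
    (hN : ∀ᵐ x ∂μ, {i : ℕ | ∃ l, i ≤ l ∧ FR (F x) (-(i : ℤ), 0) l}.Finite) : False := by
  set Q : Set X := {x | ∃ j : ℤ, TopAt (F x) j ∧ qq (F x) (j, 0) = true} with hQ
  have hQm : MeasurableSet Q := by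
    have e : Q = ⋃ j : ℤ, ((⋂ i : ℤ, {x | Hh (F x) i ≤ Hh (F x) j}) ∩ {x | qq (F x) (j, 0) = true}) := by
      ext x
      simp only [hQ, TopAt, Set.mem_ofPred_eq, Set.mem_iUnion, Set.mem_inter_iff, Set.mem_iInter]
    rw [e]
    refine MeasurableSet.iUnion fun j => (MeasurableSet.iInter fun i => ?_).inter ?_
    · exact measurableSet_le (Hh_ms hFm i) (Hh_ms hFm j)
    · have h0 : Countable Lab := by
        have h : Function.Injective (fun c : Lab => (c.tau, c.b, c.g, c.g', c.ph, c.ck)) := by
          rintro ⟨_, _, _, _, _, _⟩ ⟨_, _, _, _, _, _⟩ h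
          simp only [Prod.mk.injEq] at h
          obtain ⟨rfl, rfl, rfl, rfl, rfl, rfl⟩ := h
          rfl
        exact h.countable
      exact (hFm (j, 0)).set {c | xor c.b (decide ((j + 0) % 2 = 0)) = true}
  have hflip : ∀ᵐ x ∂μ, (e1 x ∈ Q ↔ x ∉ Q) := by
    filter_upwards [hR, hf, hir, hir', hN] with x a1 a2 a3 a4 a5
    obtain ⟨j0, hj0⟩ := top_exists (bounded_row (F x) a3 a4 a5)
    constructor
    · rintro ⟨j, h2, h3⟩ ⟨j', h4, h5⟩
      rw [topAt_shift hF1] at h2
      rw [qq_shift hF1] at h3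
      rw [qq_top a1 a2 h2 h4, h5] at h3
      exact absurd h3 (by decide)
    · intro h2
      refine ⟨j0 - 1, ?_, ?_⟩
      · rw [topAt_shift hF1, sub_add_cancel]
        exact hj0
      · rw [qq_shift hF1, sub_add_cancel]
        by_contra h3
        refine h2 ⟨j0, hj0, ?_⟩
        simpa using h3
  have hae : e1 ⁻¹' Q =ᵐ[μ] Qᶜ := by
    filter_upwards [hflip] with x hx
    exact propext hx
  have h2 : (fun x => e1 (e1 x)) ⁻¹' Q =ᵐ[μ] Q := by
    have h3 : e1 ⁻¹' (e1 ⁻¹' Q) =ᵐ[μ] e1 ⁻¹' Qᶜ := h1.quasiMeasurePreserving.preimage_ae_eq hae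
    have h4 : e1 ⁻¹' Qᶜ =ᵐ[μ] Q := by
      filter_upwards [hflip] with x hx
      refine propext ⟨fun h5 => ?_, fun h5 h6 => ?_⟩
      · by_contra h6
        exact h5 (hx.2 h6)
      · exact hx.1 h6 h5
    exact h3.trans h4
  have hm : μ Q = μ Qᶜ := (h1.measure_preimage hQm.nullMeasurableSet).symm.trans (measure_congr hae)
  rcases herg.quasiErgodic.ae_empty_or_univ₀ hQm.nullMeasurableSet h2 with h3 | h3
  · have h4 : μ Q = 0 := by
      rw [measure_congr h3]
      exact measure_empty
    have h5 : μ Qᶜ = 1 := by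
      rw [prob_compl_eq_one_sub hQm, h4]
      simp
    rw [h4, h5] at hm
    exact zero_ne_one hm
  · have h4 : μ Q = 1 := by
      rw [measure_congr h3]
      exact measure_univ
    have h5 : μ Qᶜ = 0 := by
      rw [prob_compl_eq_one_sub hQm, h4]
      simp
    rw [h4, h5] at hm
    exact one_ne_zero hm

end

end SF
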